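import Mathlib

/-!
# Two lemmas of linear algebra
-/

universe u v w

namespace Pool.Agent.H839.Kim

set_option autoImplicit false

section

variable {A : Type u} [Ring A] [Algebra ℚ A]

/-- In the algebra spanned by a finite group of units, the elements which are orthogonal to
everything are zero if this is true for idempotents. -/
theorem eq_zero_of_orthogonal (G : Subgroup Aˣ) [Finite G] {ι : Type w} (τ : ι → (A →ₗ[ℚ] ℚ))
    (hid : ∀ e ∈ Submodule.span ℚ {a : A | ∃ g ∈ G, (g : A) = a}, e * e = e →
      (∀ j, τ j e = 0) → e = 0) (x : A)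
    (hx : x ∈ Submodule.span ℚ {a : A | ∃ g ∈ G, (g : A) = a})
    (h : ∀ b ∈ Submodule.span ℚ {a : A | ∃ g ∈ G, (g : A) = a}, ∀ j, τ j (b * x) = 0) :
    x = 0 := by
  classical
  have : Fintype G := Fintype.ofFinite G
  have hN : NeZero (Nat.card G : ℚ) := by
    constructor
    have : Nat.card G ≠ 0 := Nat.card_pos.ne'
    exact_mod_cast this
  let ρ : MonoidAlgebra ℚ G →ₐ[ℚ] A := MonoidAlgebra.lift ℚ A G ((Units.coeHom A).comp G.subtype)
  have hρ : ∀ c, ρ c ∈ Submodule.span ℚ {a : A | ∃ g ∈ G, (g : A) = a} := by
    intro c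
    induction c using MonoidAlgebra.induction_linear with
    | zero => rw [map_zero]; exact Submodule.zero_mem _
    | add a b ha hb => rw [map_add]; exact Submodule.add_mem _ ha hb
    | single g a =>
      have : ρ (MonoidAlgebra.single g a) = a • ((g : Aˣ) : A) := MonoidAlgebra.lift_single _ _ _
      rw [this]
      exact Submodule.smul_mem _ _ (Submodule.subset_span ⟨g, g.2, rfl⟩)
  have hsurj : ∀ b ∈ Submodule.span ℚ {a : A | ∃ g ∈ G, (g : A) = a}, ∃ c, ρ c = b := by
    intro b hb
    induction hb using Submodule.span_induction with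
    | mem b hb =>
      obtain ⟨g, hg, rfl⟩ := hb
      refine ⟨MonoidAlgebra.single ⟨g, hg⟩ 1, ?_⟩
      have : ρ (MonoidAlgebra.single (⟨g, hg⟩ : G) 1) = (1 : ℚ) • (g : A) :=
        MonoidAlgebra.lift_single _ _ _
      rw [this, one_smul]
    | zero => exact ⟨0, map_zero _⟩
    | add x y _ _ hx hy =>
      obtain ⟨c, rfl⟩ := hx
      obtain ⟨d, rfl⟩ := hy
      exact ⟨c + d, map_add _ _ _⟩
    | smul a x _ hx =>
      obtain ⟨c, rfl⟩ := hx
      exact ⟨a • c, map_smul _ _ _⟩
  let I : Ideal (MonoidAlgebra ℚ G) :=
    { carrier := {c | ∀ d j, τ j (ρ (d * c)) = 0}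
      add_mem' := by
        intro a b ha hb d j
        rw [mul_add, map_add, map_add, ha d j, hb d j, add_zero]
      zero_mem' := by
        intro d j
        rw [mul_zero, map_zero, map_zero]
      smul_mem' := by
        intro c a ha d j
        rw [smul_eq_mul, ← mul_assoc]
        exact ha (d * c) j }
  obtain ⟨e, he, hI⟩ := IsSemisimpleRing.ideal_eq_span_idempotent I
  have heI : e ∈ I := by
    rw [hI]
    exact Ideal.subset_span rfl
  have he0 : ρ e = 0 := by
    apply hid _ (hρ e)
    · rw [← map_mul, he.eq]
    · intro j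
      have := heI 1 j
      rwa [one_mul] at this
  obtain ⟨c, rfl⟩ := hsurj x hx
  have hc : c ∈ I := by
    intro d j
    rw [map_mul]
    exact h _ (hρ d) j
  rw [hI] at hc
  obtain ⟨c', rfl⟩ := Ideal.mem_span_singleton'.1 hc
  rw [map_mul, he0, mul_zero]

end

section

variable {K : Type u} [Field K] [CharZero K] {V : Type v} [AddCommGroup V] [Module K V]
  [FiniteDimensional K V] {B : Type w} [AddCommGroup B] [Module ℚ B] [Module.Finite ℚ B]

/-- A rational space with enough functionals which come from a space over `K`. -/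
theorem finrank_le_of_functionals (j : B →+ V) {ι : Type*} (L : ι → (V →ₗ[K] K)) (r : ι → B → ℚ)
    (hr : ∀ i b, L i (j b) = (r i b : K)) (hsep : ∀ b, (∀ i, r i b = 0) → b = 0) :
    Module.finrank ℚ B ≤ Module.finrank K V := by
  classical
  let b := Module.finBasis ℚ B
  have hlin : LinearIndependent K (fun c => j (b c)) := by
    rw [Fintype.linearIndependent_iff]
    intro l hl c₀
    have radd : ∀ i x y, r i (x + y) = r i x + r i y := by
      intro i x y
      have h1 := hr i (x + y)
      rw [map_add, map_add, hr, hr] at h1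
      exact_mod_cast h1.symm
    have rsmul : ∀ i (c : ℚ) x, r i (c • x) = c * r i x := by
      intro i c x
      have := map_rat_smul (AddMonoidHom.mk' (r i) (radd i)) c x
      exact this
    have rsum : ∀ i (f : Fin (Module.finrank ℚ B) → B), r i (∑ c, f c) = ∑ c, r i (f c) := by
      intro i f
      exact map_sum (AddMonoidHom.mk' (r i) (radd i)) f _
    have hθ : ∀ θ : Module.Dual ℚ K, θ (l c₀) = 0 := by
      intro θ
      have h1 : ∑ c, θ (l c) • b c = 0 := by
        apply hsep
        intro i
        rw [rsum]
        have h2 : ∑ c, l c * (r i (b c) : K) = 0 := by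
          have h3 := congrArg (L i) hl
          rw [map_sum, map_zero] at h3
          rw [← h3]
          apply Finset.sum_congr rfl
          intro c _
          rw [map_smul, hr, smul_eq_mul]
        have h4 := congrArg θ h2
        rw [map_sum, map_zero] at h4
        rw [← h4]
        apply Finset.sum_congr rfl
        intro c _
        rw [rsmul]
        have : l c * (r i (b c) : K) = (r i (b c)) • l c := by
          rw [mul_comm]
          exact (Rat.smul_def _ _).symm
        rw [this, map_smul, smul_eq_mul, mul_comm]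
      exact Fintype.linearIndependent_iff.1 b.linearIndependent _ h1 c₀
    exact (Module.forall_dual_apply_eq_zero_iff ℚ (l c₀)).1 hθ
  have := hlin.fintype_card_le_finrank
  rwa [Fintype.card_fin] at this

end

end Pool.Agent.H839.Kim
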