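import Pool.Agent.H839.Kim.Phantom

/-!
# The cohomology of tensor powers grows at most exponentially
-/

open CategoryTheory MonoidalCategory Limits TensorProduct DirectSum

universe v u w

namespace Pool.Agent.H839.Kim

open Pool.Agent.Q227.AB

set_option autoImplicit false

noncomputable section

section linear

variable {K : Type w} [Field K]

/-- The dimension of a direct sum with finitely many non-zero summands. -/
lemma finrank_directSum_le {V : ℤ → Type w} [∀ i, AddCommGroup (V i)] [∀ i, Module K (V i)]
    [∀ i, Module.Finite K (V i)] (S : Finset ℤ) (hS : ∀ i ∉ S, Subsingleton (V i)) :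
    Module.finrank K (⨁ i, V i) ≤ ∑ i ∈ S, Module.finrank K (V i) := by
  classical
  let φ : (⨁ i, V i) →ₗ[K] (∀ i : S, V i) := LinearMap.pi fun i : S =>
    DirectSum.component K ℤ V i
  have hφ : Function.Injective φ := by
    rw [injective_iff_map_eq_zero]
    intro x hx
    ext j
    by_cases hj : j ∈ S
    · exact congrFun hx ⟨j, hj⟩
    · have := hS j hj
      exact Subsingleton.elim _ _
  have h1 := LinearMap.finrank_le_finrank_of_injective hφ
  rwa [Module.finrank_pi_fintype, Finset.sum_coe_sort S (fun i => Module.finrank K (V i))] at h1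

end linear

variable {C : Type u} [Category.{v} C] [Preadditive C] [Linear ℚ C] [MonoidalCategory C]
  [SymmetricCategory C] [RightRigidCategory C]
  {K : Type w} [Field K] [CharZero K] {q : ℕ} (R : FrobeniusCohomology C K q)

lemma betti_eq_of_subset (M : C) (S : Finset ℤ) (hS : R.degs M ⊆ S) :
    R.betti M = ∑ i ∈ S, Module.finrank K ((R.H i).obj M) := by
  unfold FrobeniusCohomology.betti
  apply finsum_eq_sum_of_support_subset
  intro i hi
  by_contra hc
  have := R.subsingleton_of_notMem (fun h => hc (hS h))
  exact hi Module.finrank_zero_of_subsingleton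

lemma sum_le_betti (M : C) (S : Finset ℤ) :
    ∑ i ∈ S, Module.finrank K ((R.H i).obj M) ≤ R.betti M := by
  classical
  rw [betti_eq_of_subset R M (S ∪ R.degs M) Finset.subset_union_right]
  exact Finset.sum_le_sum_of_subset Finset.subset_union_left

lemma betti_tensor_le (M N : C) : R.betti (M ⊗ N) ≤ R.betti M * R.betti N := by
  classical
  rw [betti_eq_of_subset R (M ⊗ N) (R.degs (M ⊗ N)) (Finset.Subset.refl _)]
  have h1 : ∀ n ∈ R.degs (M ⊗ N), Module.finrank K ((R.H n).obj (M ⊗ N)) ≤
      ∑ i ∈ R.degs M, Module.finrank K ((R.H i).obj M) *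
        Module.finrank K ((R.H (n - i)).obj N) := by
    intro n _
    obtain ⟨e⟩ := R.kunneth M N n
    rw [e.finrank_eq]
    refine (finrank_directSum_le (R.degs M) ?_).trans ?_
    · intro i hi
      have := R.subsingleton_of_notMem hi
      infer_instance
    · exact Finset.sum_le_sum fun i _ => (Module.finrank_tensorProduct).le
  refine (Finset.sum_le_sum h1).trans ?_
  rw [Finset.sum_comm, betti_eq_of_subset R M (R.degs M) (Finset.Subset.refl _), Finset.sum_mul]
  apply Finset.sum_le_sum
  intro i _
  rw [← Finset.mul_sum]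
  apply Nat.mul_le_mul_left
  have h2 : ∑ n ∈ R.degs (M ⊗ N), Module.finrank K ((R.H (n - i)).obj N) =
      ∑ n ∈ (R.degs (M ⊗ N)).image (fun n => n - i), Module.finrank K ((R.H n).obj N) := by
    rw [Finset.sum_image]
    intro a _ b _ hab
    simpa using hab
  rw [h2]
  exact sum_le_betti R N _

lemma betti_tpow_le (M : C) (n : ℕ) : R.betti (tpow M n) ≤ R.betti (𝟙_ C) * R.betti M ^ n := by
  induction n with
  | zero => simp [tpow]
  | succ n ih =>
    refine (betti_tensor_le R (tpow M n) M).trans ?_
    rw [pow_succ, ← mul_assoc]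
    exact Nat.mul_le_mul_right _ ih

/-- The endomorphisms of the cohomology. -/
abbrev EndH (X : C) : Type w := ∀ i : R.degs X, Module.End K ((R.H i).obj X)

lemma finrank_EndH_le (X : C) : Module.finrank K (EndH R X) ≤ R.betti X ^ 2 := by
  classical
  rw [Module.finrank_pi_fintype,
    Finset.sum_coe_sort (R.degs X) (fun i => Module.finrank K (Module.End K ((R.H i).obj X)))]
  have h1 : ∀ i ∈ R.degs X, Module.finrank K (Module.End K ((R.H i).obj X)) ≤
      Module.finrank K ((R.H i).obj X) * R.betti X := by
    intro i _
    rw [Module.finrank_linearMap]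
    apply Nat.mul_le_mul_left
    have := sum_le_betti R X {i}
    rwa [Finset.sum_singleton] at this
  refine (Finset.sum_le_sum h1).trans ?_
  rw [← Finset.sum_mul, pow_two]
  exact Nat.mul_le_mul_right _ (sum_le_betti R X _)

/-- The action on the cohomology. -/
def act (X : C) : (X ⟶ X) →+ EndH R X where
  toFun f := fun i => ((R.H i).map f).hom
  map_zero' := by
    funext i
    have := R.additive i
    rw [Functor.map_zero]
    rfl
  map_add' f g := by
    funext i
    have := R.additive i
    rw [Functor.map_add]
    rfl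

/-- The functional `v ↦ ∑ (-1)^i tr(y v)`. -/
def func (X : C) (y : X ⟶ X) : EndH R X →ₗ[K] K :=
  ∑ i : R.degs X, ((Int.negOnePow i : ℤ) : K) • (LinearMap.trace K ((R.H i).obj X) ∘ₗ
    LinearMap.mulLeft K (A := Module.End K ((R.H i).obj X)) ((R.H i).map y).hom ∘ₗ
      LinearMap.proj i)

variable [MonoidalPreadditive C]

lemma func_act (X : C) (x y : X ⟶ X) : func R X y (act R X x) = (R.t (x ≫ y) : K) := by
  rw [R.lefschetz X (x ≫ y) _ (R.tr_eq _), finsum_eq_sum_of_support_subset (s := R.degs X)]
  · rw [← Finset.sum_coe_sort]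
    unfold func
    rw [LinearMap.sum_apply]
    apply Finset.sum_congr rfl
    intro i _
    rw [Functor.map_comp]
    rfl
  · intro i hi
    by_contra hc
    have := R.subsingleton_of_notMem hc
    apply hi
    have h2 : ((R.H i).map (x ≫ y)).hom = 0 := by
      ext z
      exact Subsingleton.elim _ _
    simp only
    rw [h2]
    simp

variable [IsAlgClosed K]

/-- If there are no phantoms then the permutations span a space of at most exponential dimension. -/
theorem finrank_Bp_le [IsIdempotentComplete C] (hq : 1 < q) (hR : NoPhantoms R) (M : C) (n : ℕ) :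
    Module.finrank ℚ (Bp M n) ≤ R.betti (tpow M n) ^ 2 := by
  have := finite_Bp M n
  refine le_trans ?_ (finrank_EndH_le R (tpow M n))
  apply finrank_le_of_functionals ((act R (tpow M n)).comp (Bp M n).subtype.toAddMonoidHom)
    (ι := Bp M n × ℕ) (fun i => func R (tpow M n) (i.1.1 ≫ pw (R.fr (tpow M n)) (i.2 + 1)))
    (fun i b => R.t ((b.1 ≫ i.1.1) ≫ pw (R.fr (tpow M n)) (i.2 + 1)))
  · intro i b
    rw [Category.assoc, ← func_act]
    rfl
  · intro b hb
    apply Subtype.ext
    exact nondegenerate R hq hR b.1 b.2 fun w hw m => hb (⟨w, hw⟩, m)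

end

end Pool.Agent.H839.Kim
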