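import Pool.Agent.H839.Kim.Pt

/-!
# Traces and the cokernel of a morphism from the unit object
-/

open CategoryTheory MonoidalCategory Limits

universe v u w

namespace Pool.Agent.H839.Kim

open Pool.Agent.Q227.AB

set_option autoImplicit false

noncomputable section

variable {C : Type u} [Category.{v} C] [Preadditive C] [Linear ℚ C] [MonoidalCategory C]
  [SymmetricCategory C] [MonoidalPreadditive C]

omit [SymmetricCategory C] in
lemma whiskerLeft_smul' {X Y Z : C} (c : ℚ) (f : Y ⟶ Z) : X ◁ (c • f) = c • (X ◁ f) :=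
  map_rat_smul (tensorLeft X).mapAddHom c f

omit [SymmetricCategory C] in
lemma smul_whiskerRight' {X Y Z : C} (c : ℚ) (f : Y ⟶ Z) : (c • f) ▷ X = c • (f ▷ X) :=
  map_rat_smul (tensorRight X).mapAddHom c f

omit [Linear ℚ C] in
lemma pt_add {X Y P : C} [HasRightDual P] (f g : X ⊗ P ⟶ Y ⊗ P) :
    pt (f + g) = pt f + pt g := by
  simp only [pt, MonoidalPreadditive.add_whiskerRight, Preadditive.add_comp,
    Preadditive.comp_add]

omit [Linear ℚ C] in
/-- The partial trace as an additive map. -/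
def ptHom (X Y P : C) [HasRightDual P] : (X ⊗ P ⟶ Y ⊗ P) →+ (X ⟶ Y) :=
  AddMonoidHom.mk' pt pt_add

omit [Linear ℚ C] in
lemma pt_sub {X Y P : C} [HasRightDual P] (f g : X ⊗ P ⟶ Y ⊗ P) :
    pt (f - g) = pt f - pt g :=
  map_sub (ptHom X Y P) f g

omit [Linear ℚ C] in
lemma pt_zero {X Y P : C} [HasRightDual P] : pt (0 : X ⊗ P ⟶ Y ⊗ P) = 0 :=
  map_zero (ptHom X Y P)

lemma pt_smul {X Y P : C} [HasRightDual P] (c : ℚ) (f : X ⊗ P ⟶ Y ⊗ P) :
    pt (c • f) = c • pt f :=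
  map_rat_smul (ptHom X Y P) c f

omit [Linear ℚ C] in
lemma pt_sum {X Y P : C} [HasRightDual P] {ι : Type*} (s : Finset ι)
    (f : ι → (X ⊗ P ⟶ Y ⊗ P)) : pt (∑ i ∈ s, f i) = ∑ i ∈ s, pt (f i) :=
  map_sum (ptHom X Y P) f s

lemma pt_scalar {X P : C} [HasRightDual P] {g : P ⟶ P} {c : ℚ} (h : tr g = c • 𝟙 (𝟙_ C)) :
    pt (X ◁ g) = c • 𝟙 X := by
  rw [pt_whisker, h, whiskerLeft_smul', Linear.smul_comp, Linear.comp_smul]
  simp

omit [Linear ℚ C] [Preadditive C] [MonoidalPreadditive C] [SymmetricCategory C] in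
/-- A morphism from the unit object, put on the two sides. -/
lemma unit_two_sides {M N : C} (f : 𝟙_ C ⟶ M) (g : 𝟙_ C ⟶ N) :
    f ≫ (ρ_ M).inv ≫ M ◁ g = g ≫ (λ_ N).inv ≫ f ▷ N := by
  rw [rightUnitor_inv_naturality_assoc, leftUnitor_inv_naturality_assoc, whisker_exchange,
    unitors_inv_equal]

/-- **The trace on the cokernel of `f : 𝟙 ⟶ M`.** -/
theorem trace_cokernel {M P : C} [HasRightDual M] [HasRightDual P] (f : 𝟙_ C ⟶ M) (π : M ⟶ P)
    [Epi π] (h0 : f ≫ π = 0) (hdesc : ∀ {Z : C} (g : M ⟶ Z), f ≫ g = 0 → ∃ h : P ⟶ Z, π ≫ h = g)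
    (φM : M ⟶ M) (φP : P ⟶ P) (hf : f ≫ φM = f) (hπ : π ≫ φP = φM ≫ π) {a b : ℚ}
    (ha : tr φM = a • 𝟙 (𝟙_ C)) (hb : tr φP = b • 𝟙 (𝟙_ C)) : a • f - f = b • f := by
  obtain ⟨s', hs'⟩ := hdesc ((λ_ M).inv ≫ f ▷ M ≫ M ◁ φM - (ρ_ M).inv ≫ M ◁ f) (by
    rw [Preadditive.comp_sub, unit_two_sides f f, sub_eq_zero, ← Category.assoc, ← Category.assoc,
      ← Category.assoc]
    rw [Category.assoc f, ← unit_two_sides f f, Category.assoc, Category.assoc,
      ← MonoidalCategory.whiskerLeft_comp, hf])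
  have h1 : s' ≫ M ◁ π = (λ_ P).inv ≫ f ▷ P ≫ M ◁ φP := by
    rw [← cancel_epi π, reassoc_of% hs', Preadditive.sub_comp, Category.assoc, Category.assoc,
      Category.assoc, ← MonoidalCategory.whiskerLeft_comp, ← MonoidalCategory.whiskerLeft_comp,
      h0, ← hπ]
    have e1 : M ◁ (0 : 𝟙_ C ⟶ P) = 0 := MonoidalPreadditive.whiskerLeft_zero
    rw [e1, comp_zero, sub_zero, leftUnitor_inv_naturality_assoc, whisker_exchange_assoc,
      MonoidalCategory.whiskerLeft_comp]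
  have h2 : pt ((λ_ M).hom ≫ π ≫ s') = a • f - f := by
    rw [hs', Preadditive.comp_sub, Iso.hom_inv_id_assoc, pt_sub, pt_left, pt_scalar ha]
    have e2 : (λ_ M).hom ≫ (ρ_ M).inv ≫ M ◁ f = f ▷ M ≫ (β_ M M).hom := by
      rw [BraidedCategory.braiding_naturality_left, braiding_tensorUnit_left, Category.assoc]
    rw [e2, pt_left, pt_braiding, Category.comp_id, Linear.comp_smul, Category.comp_id]
  have h3 : pt ((λ_ M).hom ≫ π ≫ s') = b • f := by
    have e3 : (λ_ M).hom ≫ π ≫ s' = 𝟙_ C ◁ π ≫ (λ_ P).hom ≫ s' := by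
      rw [leftUnitor_naturality_assoc]
    rw [e3, pt_slide, Category.assoc, h1, Iso.hom_inv_id_assoc, pt_left, pt_scalar hb,
      Linear.comp_smul, Category.comp_id]
  rw [← h2, h3]

end

end Pool.Agent.H839.Kim
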