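import Pool.Agent.H839.Kim.DualF

/-!
# The criterion for abelian categories
-/

open CategoryTheory MonoidalCategory Limits Opposite

universe v u w

namespace Pool.Agent.H839.Kim

open Pool.Agent.Q227.AB

set_option autoImplicit false
set_option linter.unusedSectionVars false

noncomputable section

variable {C : Type u} [Category.{v} C] [Preadditive C] [Linear ℚ C] [MonoidalCategory C]
  [SymmetricCategory C] [RightRigidCategory C] [MonoidalPreadditive C]

section unit

variable (hone : 𝟙 (𝟙_ C) ≠ 0) (hend : ∀ f : 𝟙_ C ⟶ 𝟙_ C, ∃ c : ℚ, f = c • 𝟙 (𝟙_ C))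

include hend in
lemma invertible_of_evl {I : C} (hI : ¬ IsZero I) (h : evl I ≫ η_ I (Iᘁ) = 𝟙 _) :
    IsInvertible I := by
  obtain ⟨c, hc⟩ := hend (η_ I (Iᘁ) ≫ evl I)
  have h1 : (c - 1) • η_ I (Iᘁ) = 0 := by
    have h2 : η_ I (Iᘁ) = (η_ I (Iᘁ) ≫ evl I) ≫ η_ I (Iᘁ) := by
      rw [Category.assoc, h, Category.comp_id]
    rw [hc, Linear.smul_comp, Category.id_comp] at h2
    rw [sub_smul, one_smul, ← h2, sub_self]
  have h2 : c = 1 := by
    rcases smul_eq_zero.1 h1 with h3 | h3
    · exact sub_eq_zero.1 h3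
    · exact absurd h3 (coev_ne_zero hI)
  rw [h2, one_smul] at hc
  exact ⟨Iᘁ, ⟨⟨evl I, η_ I (Iᘁ), h, hc⟩⟩⟩

include hend in
/-- If bimorphisms from the unit object to invertible objects are isomorphisms then the non-zero
morphisms from the unit object are kernels. -/
theorem unit_isKernel [HasKernels C] [HasCokernels C]
    (hc : ∀ (L : C) (e : 𝟙_ C ⟶ L), IsInvertible L → Mono e → Epi e → IsIso e) {X : C}
    (f : 𝟙_ C ⟶ X) (hf : f ≠ 0) : KernelOf f (cokernel.π f) := by
  have hfm : Mono f := mono_of_kernel hend f hf (kernel.ι f) (KernelOf.of_kernel f)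
  have hι := KernelOf.of_kernel (cokernel.π f)
  obtain ⟨e, he⟩ := hι.lift f (cokernel.condition f)
  obtain ⟨h1, h2, h3⟩ := image_unit f (cokernel.π f)
    (fun g hg => ⟨cokernel.desc f g hg, cokernel.π_desc f g hg⟩) _ hι e he
  have hI : ¬ IsZero (kernel (cokernel.π f)) := by
    intro h
    apply hf
    rw [← he, h.eq_zero_of_tgt e, zero_comp]
  have h4 : IsIso e := hc _ e (invertible_of_evl hend hI h3) h1 h2
  refine ⟨hfm, cokernel.condition f, ?_⟩
  intro T t ht
  obtain ⟨s, hs⟩ := hι.lift t ht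
  refine ⟨s ≫ inv e, ?_⟩
  have h5 : inv e ≫ f = kernel.ι (cokernel.π f) := by
    rw [IsIso.inv_comp_eq, he]
  rw [Category.assoc, h5, hs]

end unit

variable {K : Type w} [Field K] [CharZero K] [IsAlgClosed K] {q : ℕ}
  (R : FrobeniusCohomology C K q)

/-- Monomorphisms are kernels. -/
theorem isKernel_of_mono [IsIdempotentComplete C] [HasFiniteBiproducts C] (hq : 1 < q)
    (hR : NoPhantoms R)
    (hcyc : ∀ {X : C} (f : 𝟙_ C ⟶ X), f ≠ 0 → ∃ (Z : C) (h : X ⟶ Z), KernelOf f h)
    {A B : C} (m : A ⟶ B) [Mono m] : ∃ (W : C) (w : B ⟶ W), KernelOf m w := by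
  classical
  obtain ⟨π, hnat, hid, horth, hsum, -, hH⟩ := weight_decomposition R hq hR
  choose P ι p hιp hpι using fun (M : C) (i : ℤ) =>
    IsIdempotentComplete.idempotents_split M (π M i) (hid M i)
  have hιπ : ∀ M i, ι M i ≫ π M i = ι M i := by
    intro M i
    rw [← hpι, reassoc_of% hιp]
  have hπp : ∀ M i, π M i ≫ p M i = p M i := by
    intro M i
    rw [← hpι, Category.assoc, hιp, Category.comp_id]
  have hsumM : ∀ M, ∑ i ∈ (hsum M).1.toFinset, π M i = 𝟙 M := by
    intro M
    refine Eq.trans (finsum_eq_sum_of_support_subset _ ?_).symm (hsum M).2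
    intro i hi
    simpa using hi
  set mi : ∀ i, P A i ⟶ P B i := fun i => ι A i ≫ m ≫ p B i with hmi
  have hmι : ∀ i, mi i ≫ ι B i = ι A i ≫ m := by
    intro i
    rw [hmi]
    simp only [Category.assoc]
    rw [hpι, ← hnat, reassoc_of% hιπ]
  have hpm : ∀ i, p A i ≫ mi i = m ≫ p B i := by
    intro i
    rw [hmi]
    simp only
    rw [← Category.assoc, hpι, ← Category.assoc, hnat, Category.assoc, hπp]
  have hmono : ∀ i, Mono (mi i) := by
    intro i
    refine Preadditive.mono_of_cancel_zero _ ?_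
    intro T g hg
    have h1 : g ≫ ι A i ≫ m = 0 := by rw [← hmι, reassoc_of% hg, zero_comp]
    have h2 : g ≫ ι A i = 0 := by
      rw [← cancel_mono m, Category.assoc, h1, zero_comp]
    rw [← Category.comp_id g, ← hιp A i, reassoc_of% h2, zero_comp]
  have hker : ∀ i, ∃ (W : C) (w : P B i ⟶ W), KernelOf (mi i) w := by
    intro i
    have := hmono i
    set s : ℤ := -(Int.negOnePow i : ℤ) with hs
    have hss : s * s = 1 := by
      have : (Int.negOnePow i : ℤ) * (Int.negOnePow i : ℤ) = 1 := by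
        rcases Int.even_or_odd i with h | h
        · rw [Int.negOnePow_even _ h]; rfl
        · rw [Int.negOnePow_odd _ h]; rfl
      rw [hs]
      linear_combination this
    have hdeg := degs_of_split R (hpι A i) (hιp A i) s (by
      intro j hj
      apply hH
      rintro rfl
      apply hj
      rw [hs, neg_neg])
    exact mono_isKernel R.unit_ne_zero hcyc s (mi i)
      (permSum_eq_zero R hq hR s hss (P A i) hdeg)
  choose W w hw using hker
  set S := (hsum B).1.toFinset with hS
  refine ⟨⨁ fun i : S => W i, biproduct.lift fun i : S => p B i ≫ w i, inferInstance, ?_, ?_⟩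
  · apply biproduct.hom_ext
    intro i
    rw [Category.assoc, biproduct.lift_π, ← Category.assoc, ← hpm, Category.assoc, (hw i).zero,
      comp_zero, zero_comp]
  · intro T u hu
    have h1 : ∀ i ∈ S, (u ≫ p B i) ≫ w i = 0 := by
      intro i hi
      have h2 := congrArg (fun x => x ≫ biproduct.π (fun i : S => W i) ⟨i, hi⟩) hu
      simpa [Category.assoc] using h2
    have h2 : ∀ i, ∃ v : T ⟶ P A i, i ∈ S → v ≫ mi i = u ≫ p B i := by
      intro i
      by_cases hi : i ∈ S
      · obtain ⟨v, hv⟩ := (hw i).lift (u ≫ p B i) (h1 i hi)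
        exact ⟨v, fun _ => hv⟩
      · exact ⟨0, fun h => absurd h hi⟩
    choose v hv using h2
    refine ⟨∑ i ∈ S, v i ≫ ι A i, ?_⟩
    rw [Preadditive.sum_comp]
    have h3 : ∀ i ∈ S, (v i ≫ ι A i) ≫ m = u ≫ π B i := by
      intro i hi
      rw [Category.assoc, ← hmι, ← Category.assoc, hv i hi, Category.assoc, hpι]
    rw [Finset.sum_congr rfl h3, ← Preadditive.comp_sum, hsumM, Category.comp_id]

end

end Pool.Agent.H839.Kim
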