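import Pool.Agent.H839.Kim.Relation

/-!
# Without phantoms: the weight decomposition
-/

open CategoryTheory MonoidalCategory Limits Polynomial

universe v u w

namespace Pool.Agent.H839.Kim

open Pool.Agent.Q227.AB

set_option autoImplicit false
set_option linter.unusedSectionVars false

noncomputable section

/-- The powers of an element of `ℚ[X] / (Q)` become stable. -/
lemma exists_fitting (Q P : ℚ[X]) (hQ : Q ≠ 0) :
    ∃ (n : ℕ) (c : ℚ[X]), Q ∣ P ^ (n + 1) - P ^ (2 * (n + 1)) * c := by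
  have hfin : Module.Finite ℚ (AdjoinRoot Q) := (AdjoinRoot.powerBasis hQ).finite
  have hart : IsArtinianRing (AdjoinRoot Q) := IsArtinianRing.of_finite ℚ _
  set r : AdjoinRoot Q := AdjoinRoot.mk Q P with hr
  obtain ⟨n, y, hy⟩ := IsArtinian.exists_pow_succ_smul_dvd r (1 : AdjoinRoot Q)
  have h1 : r ^ n = r ^ (n + 1) * y := by
    rw [smul_eq_mul, smul_eq_mul, mul_one] at hy
    exact hy.symm
  have h2 : ∀ k, r ^ n = r ^ (n + k) * y ^ k := by
    intro k
    induction k with
    | zero => simp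
    | succ k ih =>
      calc r ^ n = r ^ (n + k) * y ^ k := ih
        _ = r ^ n * r ^ k * y ^ k := by rw [pow_add]
        _ = (r ^ (n + 1) * y) * r ^ k * y ^ k := by rw [← h1]
        _ = _ := by ring
  obtain ⟨c, hc⟩ := AdjoinRoot.mk_surjective (g := Q) (y ^ (n + 1))
  refine ⟨n, c, ?_⟩
  rw [← AdjoinRoot.mk_eq_zero, map_sub, map_mul, map_pow, map_pow, hc, ← hr, sub_eq_zero]
  calc r ^ (n + 1) = r ^ n * r := pow_succ r n
    _ = r ^ (n + (n + 1)) * y ^ (n + 1) * r := by rw [← h2 (n + 1)]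
    _ = _ := by ring

variable {C : Type u} [Category.{v} C] [Preadditive C] [Linear ℚ C] [MonoidalCategory C]
  [SymmetricCategory C] [RightRigidCategory C] [MonoidalPreadditive C]
  {K : Type w} [Field K] [CharZero K] [IsAlgClosed K] {q : ℕ} (R : FrobeniusCohomology C K q)

lemma map_ev_of_dvd (i : ℤ) (M : C) {P Q : ℚ[X]} (h : P ∣ Q)
    (hP : (R.H i).map (R.ev M P) = 0) : (R.H i).map (R.ev M Q) = 0 := by
  obtain ⟨c, rfl⟩ := h
  rw [R.ev_mul, Functor.map_comp, hP, Limits.zero_comp]

/-- An idempotent which is zero in cohomology is zero. -/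
lemma idem_eq_zero_of_hom [IsIdempotentComplete C] (hR : NoPhantoms R) {X : C} (e : X ⟶ X)
    (he : e ≫ e = e) (h : ∀ i, (R.H i).map e = 0) : e = 0 := by
  obtain ⟨P, i, p, hip, hpi⟩ := IsIdempotentComplete.idempotents_split X e he
  have h3 : IsZero P := hR P (fun j => by
    have h6 : 𝟙 ((R.H j).obj P) = 0 := by
      have h5 : 𝟙 P = i ≫ e ≫ p := by
        rw [← hpi, Category.assoc, hip, Category.comp_id, hip]
      rw [← CategoryTheory.Functor.map_id, h5, Functor.map_comp, Functor.map_comp, h j,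
        Limits.zero_comp, Limits.comp_zero]
    exact ModuleCat.subsingleton_of_isZero ((IsZero.iff_id_eq_zero _).2 h6))
  rw [← hpi, h3.eq_of_tgt p 0, Limits.zero_comp]

/-- If `Q(F) = 0` and `P(F)` is zero in cohomology then `P(F)` is nilpotent. -/
lemma ev_pow_eq_zero [IsIdempotentComplete C] (hR : NoPhantoms R) {M : C} {Q P : ℚ[X]}
    (hQ : Q ≠ 0) (hQM : R.ev M Q = 0) (hP : ∀ i, (R.H i).map (R.ev M P) = 0) :
    ∃ k, R.ev M (P ^ k) = 0 := by
  obtain ⟨n, c, g, hg⟩ := exists_fitting Q P hQ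
  have h1 : R.ev M (P ^ (n + 1)) = R.ev M (P ^ (2 * (n + 1)) * c) := by
    have h2 : P ^ (n + 1) = Q * g + P ^ (2 * (n + 1)) * c := by
      rw [← hg]
      ring
    conv_lhs => rw [h2, R.ev_add, R.ev_mul, hQM, Limits.zero_comp, zero_add]
  set e := R.ev M (P ^ (n + 1) * c) with he
  have h2 : R.ev M (P ^ (2 * (n + 1)) * c) = R.ev M (P ^ (n + 1)) ≫ e := by
    rw [he, ← R.ev_mul]
    congr 1
    ring
  have h3 : e ≫ e = e := by
    have : e ≫ e = R.ev M (P ^ (2 * (n + 1)) * c) ≫ R.ev M c := by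
      rw [he, ← R.ev_mul, ← R.ev_mul]
      congr 1
      ring
    rw [this, ← h1, ← R.ev_mul]
  have h4 : e = 0 := by
    apply idem_eq_zero_of_hom R hR e h3
    intro i
    apply map_ev_of_dvd R i M (P := P) _ (hP i)
    exact Dvd.dvd.mul_right (dvd_pow_self P (Nat.succ_ne_zero n)) c
  exact ⟨n + 1, by rw [h1, h2, h4, Limits.comp_zero]⟩

/-- The product of the minimal polynomials of the eigenvalues of Frobenius on `H^i(M)`. -/
def polF (i : ℤ) (M : C) : ℚ[X] :=
  ∏ α ∈ (finite_mult (R.frH i M)).toFinset, minpoly ℚ α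

lemma pol_ofWeight (i : ℤ) (M : C) : OfWeight q i (polF R i M) := by
  apply OfWeight.prod
  intro α hα
  have h1 : mult (R.frH i M) α ≠ 0 := (finite_mult (R.frH i M)).mem_toFinset.1 hα
  exact (R.weight_of_m h1).2

lemma pol_root (i : ℤ) (M : C) {a : K} (ha : (R.frH i M).HasEigenvalue a) :
    ((polF R i M).map (algebraMap ℚ K)).eval a = 0 := by
  rw [Polynomial.eval_map_algebraMap, polF, map_prod]
  apply Finset.prod_eq_zero (i := a)
  · rw [Set.Finite.mem_toFinset]
    exact mult_of_hasEigenvalue ha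
  · exact minpoly.aeval ℚ a

lemma finrank_le_betti (i : ℤ) (M : C) :
    Module.finrank K ((R.H i).obj M) ≤ R.betti M :=
  by
    have := sum_le_betti R M {i}
    rwa [Finset.sum_singleton] at this

lemma map_ev_pol_pow (i : ℤ) (M : C) (n : ℕ) (hn : R.betti M ≤ n) :
    (R.H i).map (R.ev M (polF R i M ^ n)) = 0 := by
  ext1
  rw [R.map_ev, Polynomial.map_pow, aeval_pow_eq_zero _ _ (fun a ha => pol_root R i M ha) n
    ((finrank_le_betti R i M).trans hn)]
  rfl

lemma map_zero_of_notMem {i : ℤ} {M : C} (h : i ∉ R.degs M) (f : M ⟶ M) :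
    (R.H i).map f = 0 := by
  have := R.subsingleton_of_notMem h
  ext x
  exact Subsingleton.elim _ _

theorem exists_decomp [IsIdempotentComplete C] (hq : 1 < q) (hR : NoPhantoms R) (M : C) : ∃ (π : ℤ → (M ⟶ M)) (Q : ℤ → ℚ[X]),
    (∀ i, i ∉ R.degs M → π i = 0) ∧ (∑ i ∈ R.degs M, π i = 𝟙 M) ∧
    (∀ i, OfWeight q i (Q i)) ∧ (∀ i, π i ≫ R.ev M (Q i) = 0) ∧
    (∀ i j, i ≠ j → (R.H j).map (π i) = 0) := by
  classical
  set b := R.betti M with hb
  set P := ∏ i ∈ R.degs M, polF R i M with hP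
  -- the product of all polynomials is nilpotent at Frobenius
  obtain ⟨E, hE, hPz⟩ : ∃ E, b ≤ E ∧ R.ev M (P ^ E) = 0 := by
    have h1 : ∀ i, (R.H i).map (R.ev M (P ^ b)) = 0 := by
      intro i
      by_cases hi : i ∈ R.degs M
      · apply map_ev_of_dvd R i M (P := polF R i M ^ b)
        · exact pow_dvd_pow_of_dvd (Finset.dvd_prod_of_mem _ hi) _
        · exact map_ev_pol_pow R i M b le_rfl
      · exact map_zero_of_notMem R hi _
    obtain ⟨Q, hQ0, hQ⟩ := exists_poly R hq hR M
    have hQne : Q ≠ 0 := by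
      rintro rfl
      simp at hQ0
    obtain ⟨k, hk⟩ := ev_pow_eq_zero R hR hQne hQ h1
    rw [← pow_mul] at hk
    refine ⟨b * k + b, Nat.le_add_left _ _, ?_⟩
    rw [pow_add, R.ev_mul, hk, Limits.zero_comp]
  set Q : ℤ → ℚ[X] := fun i => polF R i M ^ E with hQ
  have hQw : ∀ i, OfWeight q i (Q i) := fun i => (pol_ofWeight R i M).pow E
  have hQH : ∀ i, (R.H i).map (R.ev M (Q i)) = 0 :=
    fun i => map_ev_pol_pow R i M E hE
  by_cases hne : (R.degs M).Nonempty
  · obtain ⟨μ, hμ⟩ := (exists_sum_eq_one_iff_pairwise_coprime (t := R.degs M) (s := Q) hne).2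
      (fun i j hij => (hQw i).coprime hq (fun h => hij (Subtype.ext h)) (hQw j))
    set e : ℤ → ℚ[X] := fun i =>
      if i ∈ R.degs M then μ i * ∏ j ∈ R.degs M \ {i}, Q j else 0 with he
    refine ⟨fun i => R.ev M (e i), Q, ?_, ?_, hQw, ?_, ?_⟩
    · intro i hi
      simp only [he, if_neg hi, R.ev_zero]
    · rw [← R.ev_sum, ← R.ev_one, ← hμ]
      congr 1
      apply Finset.sum_congr rfl
      intro i hi
      simp only [he, if_pos hi]
    · intro i
      by_cases hi : i ∈ R.degs M
      · simp only [he, if_pos hi]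
        rw [← R.ev_mul]
        have : μ i * (∏ j ∈ R.degs M \ {i}, Q j) * Q i = P ^ E * μ i := by
          have h1 := Finset.prod_sdiff (f := Q) (Finset.singleton_subset_iff.2 hi)
          rw [Finset.prod_singleton] at h1
          rw [mul_assoc, h1, hP, ← Finset.prod_pow, mul_comm]
        rw [this, R.ev_mul, hPz, Limits.zero_comp]
      · simp only [he, if_neg hi, R.ev_zero, Limits.zero_comp]
    · intro i j hij
      by_cases hj : j ∈ R.degs M
      · by_cases hi : i ∈ R.degs M
        · simp only [he, if_pos hi]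
          apply map_ev_of_dvd R j M (P := Q j) _ (hQH j)
          apply Dvd.dvd.mul_left
          apply Finset.dvd_prod_of_mem
          simp [hj, hij.symm]
        · simp only [he, if_neg hi, R.ev_zero]
          have := R.additive j
          exact Functor.map_zero _ _ _
      · exact map_zero_of_notMem R hj _
  · have hemp : R.degs M = ∅ := Finset.not_nonempty_iff_eq_empty.1 hne
    have hz : IsZero M := hR M fun i =>
      R.subsingleton_of_notMem (by rw [hemp]; simp)
    refine ⟨fun _ => 0, Q, fun _ _ => rfl, ?_, hQw, fun _ => Limits.zero_comp, ?_⟩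
    · exact hz.eq_of_src _ _
    · intro i j _
      have := R.additive j
      exact Functor.map_zero _ _ _

/-- The natural weight decomposition. -/
theorem weight_decomposition [IsIdempotentComplete C] (hq : 1 < q) (hR : NoPhantoms R) : ∃ π : ∀ M : C, ℤ → (M ⟶ M),
    (∀ (M N : C) (f : M ⟶ N) (i : ℤ), π M i ≫ f = f ≫ π N i) ∧
    (∀ (M : C) (i : ℤ), π M i ≫ π M i = π M i) ∧
    (∀ (M : C) (i j : ℤ), i ≠ j → π M i ≫ π M j = 0) ∧
    (∀ M : C, {i : ℤ | π M i ≠ 0}.Finite ∧ ∑ᶠ i : ℤ, π M i = 𝟙 M) ∧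
    (∀ (M : C) (i : ℤ), (R.H i).map (π M i) = 𝟙 ((R.H i).obj M)) ∧
    (∀ (M : C) (i j : ℤ), i ≠ j → (R.H j).map (π M i) = 0) := by
  classical
  choose π Q h1 h2 h3 h4 h5 using fun M : C => exists_decomp R hq hR M
  -- no morphisms between different weights
  have key : ∀ (M N : C) (f : M ⟶ N) (i j : ℤ), i ≠ j → π M i ≫ f ≫ π N j = 0 := by
    intro M N f i j hij
    obtain ⟨a, b, hab⟩ := (h3 M i).coprime hq hij (h3 N j)
    have hg : π M i ≫ f ≫ π N j = (π M i ≫ f ≫ π N j) ≫ R.ev N (a * Q M i + b * Q N j) := by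
      rw [hab, R.ev_one, Category.comp_id]
    rw [hg, R.ev_add, Preadditive.comp_add, mul_comm a, mul_comm b, R.ev_mul, R.ev_mul]
    have e1 : (π M i ≫ f ≫ π N j) ≫ R.ev N (Q M i) ≫ R.ev N a = 0 := by
      have c1 : R.ev M (Q M i) ≫ π M i = 0 := by
        rw [← R.ev_naturality (π M i), h4]
      rw [← Category.assoc, R.ev_naturality (π M i ≫ f ≫ π N j) (Q M i),
        ← Category.assoc (R.ev M (Q M i)), c1, Limits.zero_comp, Limits.zero_comp]
    have e2 : (π M i ≫ f ≫ π N j) ≫ R.ev N (Q N j) ≫ R.ev N b = 0 := by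
      have := h4 N j
      simp only [Category.assoc]
      rw [← Category.assoc (π N j), this, Limits.zero_comp, Limits.comp_zero, Limits.comp_zero]
    rw [e1, e2, add_zero]
  have hl : ∀ (M N : C) (f : M ⟶ N) (i : ℤ), π M i ≫ f = π M i ≫ f ≫ π N i := by
    intro M N f i
    conv_lhs => rw [← Category.comp_id f, ← h2 N, Preadditive.comp_sum, Preadditive.comp_sum]
    by_cases hi : i ∈ R.degs N
    · rw [Finset.sum_eq_single_of_mem i hi]
      intro j _ hj
      exact key M N f i j hj.symm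
    · rw [h1 N i hi, Limits.comp_zero, Limits.comp_zero]
      apply Finset.sum_eq_zero
      intro j hj
      exact key M N f i j (fun h => hi (h ▸ hj))
  have hr : ∀ (M N : C) (f : M ⟶ N) (i : ℤ), f ≫ π N i = π M i ≫ f ≫ π N i := by
    intro M N f i
    conv_lhs => rw [← Category.id_comp f, ← h2 M, Preadditive.sum_comp, Preadditive.sum_comp]
    by_cases hi : i ∈ R.degs M
    · rw [Finset.sum_eq_single_of_mem i hi]
      · rw [Category.assoc]
      · intro j _ hj
        rw [Category.assoc]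
        exact key M N f j i hj
    · rw [h1 M i hi, Limits.zero_comp]
      apply Finset.sum_eq_zero
      intro j hj
      rw [Category.assoc]
      exact key M N f j i (fun h => hi (h ▸ hj))
  have hidem : ∀ (M : C) (i : ℤ), π M i ≫ π M i = π M i := by
    intro M i
    have := hl M M (𝟙 M) i
    rw [Category.comp_id, Category.id_comp] at this
    exact this.symm
  refine ⟨π, fun M N f i => (hl M N f i).trans (hr M N f i).symm, hidem, ?_, ?_, ?_, h5⟩
  · intro M i j hij
    have := key M M (𝟙 M) i j hij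
    rwa [Category.id_comp] at this
  · intro M
    have hs : Function.support (π M) ⊆ ↑(R.degs M) := by
      intro i hi
      by_contra hc
      exact hi (h1 M i hc)
    refine ⟨(Finset.finite_toSet _).subset hs, ?_⟩
    rw [finsum_eq_sum_of_support_subset _ hs, h2 M]
  · intro M i
    by_cases hi : i ∈ R.degs M
    · have := R.additive i
      have e : (R.H i).map (∑ i ∈ R.degs M, π M i) = (R.H i).map (𝟙 M) := by rw [h2 M]
      rw [Functor.map_sum, Finset.sum_eq_single_of_mem i hi (fun j _ hj => h5 M j i hj),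
        CategoryTheory.Functor.map_id] at e
      exact e
    · have := R.subsingleton_of_notMem hi
      ext x
      exact Subsingleton.elim _ _


end

end Pool.Agent.H839.Kim
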