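import Pool.Agent.H839.Kim.Mono

/-!
# Duality as an equivalence, and the dual statements
-/

open CategoryTheory MonoidalCategory Limits Opposite

universe v u w

namespace Pool.Agent.H839.Kim

open Pool.Agent.Q227.AB

set_option autoImplicit false
set_option linter.unusedSectionVars false

noncomputable section

variable {C : Type u} [Category.{v} C] [Preadditive C] [Linear ℚ C] [MonoidalCategory C]
  [SymmetricCategory C] [RightRigidCategory C] [MonoidalPreadditive C]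

variable (C) in
/-- The duality functor. -/
def dualF : Cᵒᵖ ⥤ C where
  obj X := (X.unop)ᘁ
  map f := (f.unop)ᘁ
  map_id X := rightAdjointMate_id
  map_comp f g := by
    rw [unop_comp, comp_rightAdjointMate]

/-- The name of a morphism. -/
def name {X Y : C} (f : X ⟶ Y) : 𝟙_ C ⟶ Y ⊗ Xᘁ := η_ X (Xᘁ) ≫ f ▷ Xᘁ

lemma name_injective {X Y : C} {f g : X ⟶ Y} (h : name f = name g) : f = g := by
  by_contra hne
  apply name_ne_zero (sub_ne_zero.2 hne)
  have h1 : (f - g) ▷ Xᘁ = f ▷ Xᘁ - g ▷ Xᘁ := (tensorRight Xᘁ).map_sub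
  rw [h1, Preadditive.comp_sub, sub_eq_zero]
  exact h

lemma name_surjective {X Y : C} (a : 𝟙_ C ⟶ Y ⊗ Xᘁ) : ∃ f : X ⟶ Y, name f = a := by
  refine ⟨(λ_ X).inv ≫ (tensorRightHomEquiv (𝟙_ C) X (Xᘁ) Y).symm a, ?_⟩
  have h1 : ∀ f : X ⟶ Y, name f = tensorRightHomEquiv (𝟙_ C) X (Xᘁ) Y ((λ_ X).hom ≫ f) := by
    intro f
    change _ = (ρ_ (𝟙_ C)).inv ≫ 𝟙_ C ◁ η_ X (Xᘁ) ≫ (α_ (𝟙_ C) X (Xᘁ)).inv ≫
      ((λ_ X).hom ≫ f) ▷ Xᘁ
    unfold name
    simp [unitors_equal]
  rw [h1, Iso.hom_inv_id_assoc, Equiv.apply_symm_apply]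

/-- The name of the dual morphism. -/
lemma name_mate {X Y : C} (f : X ⟶ Y) : η_ Y (Yᘁ) ≫ Y ◁ fᘁ = name f :=
  coevaluation_comp_rightAdjointMate f

lemma coname_injective {X Y : C} {f g : Yᘁ ⟶ X}
    (h : η_ Y (Yᘁ) ≫ Y ◁ f = η_ Y (Yᘁ) ≫ Y ◁ g) : f = g := by
  have h1 : ∀ f : Yᘁ ⟶ X, tensorLeftHomEquiv (𝟙_ C) Y (Yᘁ) X ((ρ_ _).hom ≫ f) =
      η_ Y (Yᘁ) ≫ Y ◁ f := by
    intro f
    change (λ_ (𝟙_ C)).inv ≫ η_ Y (Yᘁ) ▷ 𝟙_ C ≫ (α_ Y (Yᘁ) (𝟙_ C)).hom ≫
      Y ◁ ((ρ_ _).hom ≫ f) = _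
    simp [unitors_inv_equal]
  rw [← h1, ← h1] at h
  have h2 := (tensorLeftHomEquiv (𝟙_ C) Y (Yᘁ) X).injective h
  exact (cancel_epi _).1 h2

lemma mate_injective {X Y : C} {f g : X ⟶ Y} (h : fᘁ = gᘁ) : f = g :=
  name_injective (by rw [← name_mate, ← name_mate, h])

lemma mate_surjective {X Y : C} (φ : Yᘁ ⟶ Xᘁ) : ∃ f : X ⟶ Y, fᘁ = φ := by
  obtain ⟨f, hf⟩ := name_surjective (η_ Y (Yᘁ) ≫ Y ◁ φ)
  exact ⟨f, coname_injective (by rw [name_mate, hf])⟩

instance : (dualF C).Faithful where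
  map_injective {X Y} f g h := by
    apply Quiver.Hom.unop_inj
    exact mate_injective h

instance : (dualF C).Full where
  map_surjective {X Y} φ := by
    obtain ⟨f, hf⟩ := mate_surjective (X := Y.unop) (Y := X.unop) φ
    exact ⟨f.op, hf⟩

instance : (dualF C).EssSurj where
  mem_essImage X := by
    refine ⟨op (Xᘁ), ⟨?_⟩⟩
    exact rightDualIso (X := Xᘁ) HasRightDual.exact (BraidedCategory.exactPairing_swap X Xᘁ)

instance : (dualF C).IsEquivalence where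

variable (C) in
/-- Kernels give cokernels. -/
theorem hasCokernels_of_hasKernels [HasKernels C] : HasCokernels C := by
  have h1 : HasEqualizers C := Preadditive.hasEqualizers_of_hasKernels
  have h2 : HasEqualizers Cᵒᵖ := Adjunction.hasLimitsOfShape_of_equivalence (dualF C)
  have h3 : HasCoequalizers Cᵒᵖᵒᵖ := inferInstance
  have h4 : HasCoequalizers C := Adjunction.hasColimitsOfShape_of_equivalence (opOp C)
  exact inferInstance

variable (C) in
/-- If all monomorphisms are normal then all epimorphisms are normal. -/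
theorem normalEpi_of_normalMono (h : ∀ {X Y : C} (f : X ⟶ Y) [Mono f], Nonempty (NormalMono f))
    {X Y : C} (p : X ⟶ Y) [Epi p] : Nonempty (NormalEpi p) := by
  have h1 : Mono p.op := inferInstance
  have h2 : Mono ((dualF C).map p.op) := inferInstance
  obtain ⟨h3⟩ := h ((dualF C).map p.op)
  have h4 : NormalMono p.op := equivalenceReflectsNormalMono (dualF C) h3
  have h5 : NormalEpi p.op.op := normalEpiOfNormalMonoUnop p.op.op h4
  exact ⟨equivalenceReflectsNormalEpi (opOp C) h5⟩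

end

end Pool.Agent.H839.Kim
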