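import Pool.Agent.H839.Kim.Nilp

/-!
# Cokernels of coevaluations, phantoms, nilpotence and finite dimensionality
-/

open CategoryTheory MonoidalCategory Limits

universe v u w

namespace Pool.Agent.H839.Kim

open Pool.Agent.Q227.AB

set_option autoImplicit false
set_option linter.unusedSectionVars false

noncomputable section

attribute [-instance] CategoryTheory.hasRightDualUnit

variable {C : Type u} [Category.{v} C] [Preadditive C] [Linear ℚ C] [MonoidalCategory C]
  [SymmetricCategory C] [RightRigidCategory C] [MonoidalPreadditive C]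
  {K : Type w} [Field K] [CharZero K] [IsAlgClosed K] {q : ℕ} (R : FrobeniusCohomology C K q)

lemma subsingleton_tensor {M N : C} (h : ∀ i, Subsingleton ((R.H i).obj M)) (n : ℤ) :
    Subsingleton ((R.H n).obj (M ⊗ N)) := by
  obtain ⟨e⟩ := R.kunneth M N n
  apply e.toEquiv.subsingleton_congr.2
  have h2 : ∀ i : ℤ, Subsingleton (TensorProduct K ((R.H i).obj M) ((R.H (n - i)).obj N)) := by
    intro i
    have := h i
    infer_instance
  constructor
  intro x y
  ext i
  exact (h2 i).elim _ _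

/-- All traces vanish on an object without cohomology. -/
lemma t_eq_zero_of_subsingleton {M : C} (h : ∀ i, Subsingleton ((R.H i).obj M)) (f : M ⟶ M) :
    R.t f = 0 := by
  have h1 := R.lefschetz M f _ (R.tr_eq f)
  have h2 : (R.t f : K) = 0 := by
    rw [h1]
    apply finsum_eq_zero_of_forall_eq_zero
    intro i
    have := h i
    have h3 : ((R.H i).map f).hom = 0 := by
      ext z
      exact Subsingleton.elim _ _
    rw [h3]
    simp
  exact_mod_cast h2

lemma pw_id {M : C} (n : ℕ) : pw (𝟙 M) n = 𝟙 M := by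
  induction n with
  | zero => rfl
  | succ n ih => simp [pw, ih]

lemma fr_unit : R.fr (𝟙_ C) = 𝟙 (𝟙_ C) := R.frob_unit

/-- A non-zero morphism from the unit object with a cokernel: the eigenvalue one of Frobenius on
`H^0` of the cokernel is lost. -/
theorem chi_cokernel {X P : C} (f : 𝟙_ C ⟶ X) (hf : f ≠ 0) (π : X ⟶ P) [Epi π] (h0 : f ≫ π = 0)
    (hdesc : ∀ {Z : C} (g : X ⟶ Z), f ≫ g = 0 → ∃ h : P ⟶ Z, π ≫ h = g) :
    R.chi P 1 = R.chi X 1 - 1 := by
  classical
  have key : ∀ n, R.t (pw (R.fr P) n) = R.t (pw (R.fr X) n) - 1 := by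
    intro n
    have h1 := trace_cokernel f π h0 hdesc (pw (R.fr X) n) (pw (R.fr P) n)
      (by rw [R.pw_fr_naturality f n, fr_unit, pw_id, Category.id_comp])
      (R.pw_fr_naturality π n) (R.tr_eq _) (R.tr_eq _)
    have h2 : (R.t (pw (R.fr X) n) - 1 - R.t (pw (R.fr P) n)) • f = 0 := by
      rw [sub_smul, sub_smul, one_smul, h1, sub_self]
    rcases smul_eq_zero.1 h2 with h3 | h3
    · linarith
    · exact absurd h3 hf
  set S : Finset K := insert 1 (R.eigs X ∪ R.eigs P) with hS
  have hX : R.eigs X ⊆ S := by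
    intro x hx
    simp [hS, hx]
  have hP : R.eigs P ⊆ S := by
    intro x hx
    simp [hS, hx]
  have h1 : ∀ n : ℕ, ∑ x ∈ S, ((R.chi P x : K) - R.chi X x + if x = 1 then 1 else 0) * x ^ n =
      0 := by
    intro n
    have e1 := R.trace_pw P S hP n (R.tr_eq _)
    have e2 := R.trace_pw X S hX n (R.tr_eq _)
    have e3 : ((R.t (pw (R.fr P) n) : ℚ) : K) = (R.t (pw (R.fr X) n) : ℚ) - 1 := by
      rw [key n]
      push_cast
      rfl
    simp only [add_mul, sub_mul, Finset.sum_add_distrib, Finset.sum_sub_distrib]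
    rw [← e1, ← e2, e3]
    simp [hS]
  have h2 := eq_zero_of_powers S _ h1 1 (by simp [hS])
  simp only [if_true] at h2
  have h3 : ((R.chi P 1 : ℤ) : K) = ((R.chi X 1 - 1 : ℤ) : K) := by
    push_cast
    linear_combination h2
  exact_mod_cast h3

/-- A non-zero morphism `𝟙 ⟶ X` can have a cokernel only if one is an eigenvalue of Frobenius on
`H^0(X)`. -/
theorem m_ne_zero_of_cokernel (hq : 1 < q) {X : C} (f : 𝟙_ C ⟶ X) (hf : f ≠ 0)
    [HasCokernel f] : R.m 0 X 1 ≠ 0 := by
  intro hm
  have h1 := chi_cokernel R f hf (cokernel.π f) (cokernel.condition f)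
    (fun g hg => ⟨cokernel.desc f g hg, cokernel.π_desc f g hg⟩)
  rw [R.chi_eq hq _ (isWeilNumber_one q), R.chi_eq hq _ (isWeilNumber_one q), hm] at h1
  simp only [Int.negOnePow_zero, Units.val_one, one_mul, Nat.cast_zero, zero_sub] at h1
  omega

lemma coev_ne_zero {M : C} (hM : ¬ IsZero M) : η_ M (Mᘁ) ≠ 0 := by
  intro h0
  apply hM
  have hz := ExactPairing.evaluation_coevaluation M (Mᘁ)
  rw [h0, MonoidalPreadditive.zero_whiskerRight, zero_comp] at hz
  rw [IsZero.iff_id_eq_zero, ← cancel_epi (λ_ M).hom, ← cancel_mono (ρ_ M).inv, comp_zero,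
    zero_comp, hz]
  simp

/-- If the coevaluations have cokernels then there are no phantoms. -/
theorem noPhantoms_of_cokernels (hq : 1 < q) (h : ∀ M : C, HasCokernel (η_ M (Mᘁ))) :
    NoPhantoms R := by
  intro M hM
  by_contra hne
  have := h M
  apply m_ne_zero_of_cokernel R hq (η_ M (Mᘁ)) (coev_ne_zero hne)
  have := subsingleton_tensor R (N := Mᘁ) hM 0
  unfold FrobeniusCohomology.m mult
  exact Module.finrank_zero_of_subsingleton

/-- Without phantoms, every non-zero object has an endomorphism with non-zero trace. -/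
theorem exists_tr_ne_zero [IsIdempotentComplete C] (hq : 1 < q) (hR : NoPhantoms R) {M : C}
    (hM : ¬ IsZero M) : ∃ g : M ⟶ M, tr g ≠ 0 := by
  by_contra hc
  push Not at hc
  apply hM
  rw [IsZero.iff_id_eq_zero]
  have h1 := nilp R hq hR (𝟙 M) (fun g => by rw [Category.id_comp]; exact hc g)
  rwa [pw_id] at h1

/-- A split monomorphism has a cokernel. -/
lemma hasCokernel_of_split [IsIdempotentComplete C] {A X : C} (f : A ⟶ X) (r : X ⟶ A)
    (h : f ≫ r = 𝟙 A) : HasCokernel f := by
  have he : (𝟙 X - r ≫ f) ≫ (𝟙 X - r ≫ f) = 𝟙 X - r ≫ f := by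
    have h2 : (r ≫ f) ≫ r ≫ f = r ≫ f := by
      rw [Category.assoc, reassoc_of% h]
    rw [Preadditive.sub_comp, Preadditive.comp_sub, Preadditive.comp_sub, h2]
    simp
  obtain ⟨P, i, p, hip, hpi⟩ := IsIdempotentComplete.idempotents_split X _ he
  have h1 : f ≫ p = 0 := by
    have : f ≫ p = (f ≫ (p ≫ i)) ≫ p := by
      simp only [Category.assoc]
      rw [hip, Category.comp_id]
    rw [this, hpi, Preadditive.comp_sub, Category.comp_id, reassoc_of% h, sub_self, zero_comp]
  refine ⟨⟨⟨CokernelCofork.ofπ p h1, CokernelCofork.IsColimit.ofπ _ _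
    (fun g _ => i ≫ g) ?_ ?_⟩⟩⟩
  · intro Z g hg
    rw [← Category.assoc, hpi, Preadditive.sub_comp, Category.assoc, hg, comp_zero, sub_zero,
      Category.id_comp]
  · intro Z g hg m hm
    rw [← hm, reassoc_of% hip]

lemma hasCokernel_zero' {A X : C} (f : A ⟶ X) (h : f = 0) : HasCokernel f :=
  ⟨⟨⟨_, CokernelCofork.IsColimit.ofId f h⟩⟩⟩

/-- If every non-zero object has an endomorphism with non-zero trace then the coevaluations have
cokernels. -/
theorem hasCokernel_coev [IsIdempotentComplete C] (h : ∀ M : C, ¬ IsZero M → ∃ g : M ⟶ M, tr g ≠ 0)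
    (R : FrobeniusCohomology C K q) (M : C) : HasCokernel (η_ M (Mᘁ)) := by
  by_cases hM : IsZero M
  · apply hasCokernel_zero'
    have h1 : 𝟙 M = 0 := (IsZero.iff_id_eq_zero M).1 hM
    rw [← Category.comp_id (η_ M (Mᘁ)), ← id_whiskerRight, h1,
      MonoidalPreadditive.zero_whiskerRight, comp_zero]
  · obtain ⟨g, hg⟩ := h M hM
    have hg' : R.t g ≠ 0 := by
      intro h0
      rw [R.tr_eq, h0, zero_smul] at hg
      exact hg rfl
    apply hasCokernel_of_split _ ((R.t g)⁻¹ • ((g ▷ Mᘁ) ≫ (β_ M (Mᘁ)).hom ≫ ε_ M (Mᘁ)))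
    rw [Linear.comp_smul]
    change (R.t g)⁻¹ • tr g = _
    rw [R.tr_eq, smul_smul, inv_mul_cancel₀ hg', one_smul]

end

end Pool.Agent.H839.Kim
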