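import Pool.Agent.H839.Kim.Perms

/-!
# The space spanned by the permutations, and relations between them
-/

open CategoryTheory MonoidalCategory Limits

universe v u w

namespace Pool.Agent.H839.Kim

open Pool.Agent.Q227.AB

set_option autoImplicit false

noncomputable section

variable {C : Type u} [Category.{v} C] [Preadditive C] [Linear ℚ C] [MonoidalCategory C]
  [SymmetricCategory C] [MonoidalPreadditive C]

/-- The space spanned by the permutations. -/
def Bp (M : C) (n : ℕ) : Submodule ℚ (tpow M n ⟶ tpow M n) :=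
  Submodule.span ℚ {g | IsPerm M n g}

/-- The space spanned by the permutations which do not fix the last factor. -/
def Zs (M : C) (n : ℕ) : Submodule ℚ (tpow M (n + 1) ⟶ tpow M (n + 1)) :=
  Submodule.span ℚ {g | NotFix M n g}

omit [MonoidalPreadditive C] in
lemma finite_Bp (M : C) (n : ℕ) : Module.Finite ℚ (Bp M n) :=
  FiniteDimensional.span_of_finite ℚ (finite_isPerm M n)

variable {M : C}

omit [MonoidalPreadditive C] in
lemma IsPerm.mem {n : ℕ} {g : tpow M n ⟶ tpow M n} (hg : IsPerm M n g) : g ∈ Bp M n :=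
  Submodule.subset_span hg

omit [MonoidalPreadditive C] in
lemma NotFix.mem {n : ℕ} {g : tpow M (n + 1) ⟶ tpow M (n + 1)} (hg : NotFix M n g) :
    g ∈ Zs M n :=
  Submodule.subset_span hg

lemma Bp_comp {n : ℕ} {f g : tpow M n ⟶ tpow M n} (hf : f ∈ Bp M n) (hg : g ∈ Bp M n) :
    f ≫ g ∈ Bp M n := by
  induction hf using Submodule.span_induction with
  | mem f hf =>
    induction hg using Submodule.span_induction with
    | mem g hg => exact (IsPerm.comp hf hg).mem
    | zero =>
      rw [comp_zero]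
      exact Submodule.zero_mem _
    | add x y _ _ hx hy =>
      rw [Preadditive.comp_add]
      exact Submodule.add_mem _ hx hy
    | smul a x _ hx =>
      rw [Linear.comp_smul]
      exact Submodule.smul_mem _ _ hx
  | zero =>
    rw [zero_comp]
    exact Submodule.zero_mem _
  | add x y _ _ hx hy =>
    rw [Preadditive.add_comp]
    exact Submodule.add_mem _ hx hy
  | smul a x _ hx =>
    rw [Linear.smul_comp]
    exact Submodule.smul_mem _ _ hx

lemma Bp_whisk {n : ℕ} {f : tpow M n ⟶ tpow M n} (hf : f ∈ Bp M n) : f ▷ M ∈ Bp M (n + 1) := by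
  induction hf using Submodule.span_induction with
  | mem f hf => exact (IsPerm.whisk hf).mem
  | zero =>
    rw [MonoidalPreadditive.zero_whiskerRight]
    exact Submodule.zero_mem _
  | add x y _ _ hx hy =>
    rw [MonoidalPreadditive.add_whiskerRight]
    exact Submodule.add_mem _ hx hy
  | smul a x _ hx =>
    rw [smul_whiskerRight']
    exact Submodule.smul_mem _ _ hx

lemma Zs_left {n : ℕ} {f : tpow M n ⟶ tpow M n} (hf : f ∈ Bp M n)
    {g : tpow M (n + 1) ⟶ tpow M (n + 1)} (hg : NotFix M n g) : f ▷ M ≫ g ∈ Zs M n := by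
  induction hf using Submodule.span_induction with
  | mem f hf => exact (NotFix.left hg hf).mem
  | zero =>
    rw [MonoidalPreadditive.zero_whiskerRight, zero_comp]
    exact Submodule.zero_mem _
  | add x y _ _ hx hy =>
    rw [MonoidalPreadditive.add_whiskerRight, Preadditive.add_comp]
    exact Submodule.add_mem _ hx hy
  | smul a x _ hx =>
    rw [smul_whiskerRight', Linear.smul_comp]
    exact Submodule.smul_mem _ _ hx

/-- Write a map on `n + 1` factors by its components with respect to the cosets. -/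
def glue (M : C) (n : ℕ) : (Fin (n + 1) → Bp M n) →ₗ[ℚ] Bp M (n + 1) where
  toFun x := ⟨∑ p, (x p).1 ▷ M ≫ cyc M n p, Submodule.sum_mem _ fun p _ =>
    Bp_comp (Bp_whisk (x p).2) (cyc_isPerm M n p).mem⟩
  map_add' x y := by
    apply Subtype.ext
    change ∑ p, ((x p).1 + (y p).1) ▷ M ≫ cyc M n p = ∑ p, (x p).1 ▷ M ≫ cyc M n p +
      ∑ p, (y p).1 ▷ M ≫ cyc M n p
    rw [← Finset.sum_add_distrib]
    exact Finset.sum_congr rfl fun p _ => by
      rw [MonoidalPreadditive.add_whiskerRight, Preadditive.add_comp]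
  map_smul' c x := by
    apply Subtype.ext
    change ∑ p, (c • (x p).1) ▷ M ≫ cyc M n p = c • ∑ p, (x p).1 ▷ M ≫ cyc M n p
    rw [Finset.smul_sum]
    exact Finset.sum_congr rfl fun p _ => by
      rw [smul_whiskerRight', Linear.smul_comp]

lemma glue_injective (n : ℕ) (h : ∀ x ∈ Bp M n, x ▷ M ∈ Zs M n → x = 0) :
    Function.Injective (glue M n) := by
  rw [injective_iff_map_eq_zero]
  intro x hx
  have hx' : ∑ p, (x p).1 ▷ M ≫ cyc M n p = 0 := congrArg Subtype.val hx
  funext p₀
  apply Subtype.ext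
  obtain ⟨c', hc', h1, h2⟩ := (cyc_isPerm M n (p₀ : ℕ)).inv
  apply h _ (x p₀).2
  have h3 : (∑ p, (x p).1 ▷ M ≫ cyc M n p) ≫ c' = 0 := by rw [hx', zero_comp]
  rw [Preadditive.sum_comp, ← Finset.add_sum_erase _ _ (Finset.mem_univ p₀), Category.assoc, h1,
    Category.comp_id, add_eq_zero_iff_eq_neg] at h3
  rw [h3]
  apply Submodule.neg_mem
  apply Submodule.sum_mem
  intro p hp
  rw [Category.assoc]
  apply Zs_left (x p).2
  apply notFix_cyc M n p p₀ (by omega) (by omega) _ c' h1
  intro hpp
  exact (Finset.ne_of_mem_erase hp) (Fin.ext hpp)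

lemma finrank_growth (n : ℕ) (h : ∀ x ∈ Bp M n, x ▷ M ∈ Zs M n → x = 0) :
    (n + 1) * Module.finrank ℚ (Bp M n) ≤ Module.finrank ℚ (Bp M (n + 1)) := by
  have := finite_Bp M n
  have := finite_Bp M (n + 1)
  have h1 := LinearMap.finrank_le_finrank_of_injective (glue_injective n h)
  rwa [Module.finrank_pi_fintype, Finset.sum_const, Finset.card_univ, Fintype.card_fin,
    smul_eq_mul] at h1

lemma factorial_le (hone : 𝟙 (𝟙_ C) ≠ 0)
    (h : ∀ (n : ℕ), ∀ x ∈ Bp M n, x ▷ M ∈ Zs M n → x = 0) (n : ℕ) :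
    n.factorial ≤ Module.finrank ℚ (Bp M n) := by
  induction n with
  | zero =>
    have h1 : (𝟙 (tpow M 0)) ∈ Bp M 0 := (IsPerm.one).mem
    have h2 : Nontrivial (Bp M 0) := by
      refine ⟨⟨⟨𝟙 (tpow M 0), h1⟩, 0, ?_⟩⟩
      intro h3
      exact hone (congrArg Subtype.val h3)
    have := finite_Bp M 0
    have h3 : 0 < Module.finrank ℚ (Bp M 0) := Module.finrank_pos
    exact h3
  | succ n ih =>
    rw [Nat.factorial_succ]
    exact (Nat.mul_le_mul_left _ ih).trans (finrank_growth n (h n))

end

end Pool.Agent.H839.Kim
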