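import Pool.Agent.H839.Kim.Final

/-!
# The image of a morphism from the unit object
-/

open CategoryTheory MonoidalCategory Limits

universe v u w

namespace Pool.Agent.H839.Kim

open Pool.Agent.Q227.AB

set_option autoImplicit false
set_option linter.unusedSectionVars false

noncomputable section

/-- The object `L` is invertible for the tensor product. -/
def IsInvertible {C : Type u} [Category.{v} C] [MonoidalCategory C] (L : C) : Prop :=
  ∃ L' : C, Nonempty (L ⊗ L' ≅ 𝟙_ C)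

section

variable {C : Type u} [Category.{v} C] [MonoidalCategory C] [SymmetricCategory C]

/-- If the symmetry of `I ⊗ I` is the identity then the composition of evaluation and coevaluation
is the identity. -/
lemma evl_coev {I : C} [HasRightDual I] (h : (β_ I I).hom = 𝟙 _) :
    evl I ≫ η_ I (Iᘁ) = 𝟙 _ := by
  apply (tensorRightHomEquiv (I ⊗ Iᘁ) I (Iᘁ) I).symm.injective
  have e1 : (tensorRightHomEquiv (I ⊗ Iᘁ) I (Iᘁ) I).symm (evl I ≫ η_ I (Iᘁ)) =
      evl I ▷ I ≫ (λ_ I).hom := by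
    rw [tensorRightHomEquiv_symm_naturality]
    congr 1
    change η_ I (Iᘁ) ▷ I ≫ (α_ I (Iᘁ) I).hom ≫ I ◁ ε_ I (Iᘁ) ≫ (ρ_ I).hom = _
    rw [ExactPairing.evaluation_coevaluation_assoc]
    simp
  have e2 : (tensorRightHomEquiv (I ⊗ Iᘁ) I (Iᘁ) I).symm (𝟙 _) =
      (α_ I (Iᘁ) I).hom ≫ I ◁ ε_ I (Iᘁ) ≫ (ρ_ I).hom := by
    change (𝟙 _) ▷ I ≫ _ = _
    rw [id_whiskerRight, Category.id_comp]
  have e3 : I ◁ ε_ I (Iᘁ) ≫ (ρ_ I).hom = (β_ I (Iᘁ ⊗ I)).hom ≫ ε_ I (Iᘁ) ▷ I ≫ (λ_ I).hom := by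
    rw [← BraidedCategory.braiding_naturality_right_assoc, braiding_tensorUnit_right]
    simp
  have e4 : (α_ I (Iᘁ) I).hom ≫ (β_ I (Iᘁ ⊗ I)).hom = (β_ I (Iᘁ)).hom ▷ I := by
    rw [BraidedCategory.braiding_tensor_right_hom, h]
    simp
  rw [e1, e2, e3, reassoc_of% e4, evl, comp_whiskerRight, Category.assoc]

end

variable {C : Type u} [Category.{v} C] [Preadditive C] [Linear ℚ C] [MonoidalCategory C]
  [SymmetricCategory C] [RightRigidCategory C] [MonoidalPreadditive C]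

/-- The morphism `u` is a kernel of `v`. -/
structure KernelOf {A E Z : C} (u : A ⟶ E) (v : E ⟶ Z) : Prop where
  mono : Mono u
  zero : u ≫ v = 0
  lift : ∀ {T : C} (t : T ⟶ E), t ≫ v = 0 → ∃ s : T ⟶ A, s ≫ u = t

lemma KernelOf.of_kernel {E Z : C} (v : E ⟶ Z) [HasKernel v] : KernelOf (kernel.ι v) v where
  mono := inferInstance
  zero := kernel.condition v
  lift t ht := ⟨kernel.lift v t ht, kernel.lift_ι v t ht⟩

lemma KernelOf.normal {A E Z : C} {u : A ⟶ E} {v : E ⟶ Z} (h : KernelOf u v) :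
    Nonempty (NormalMono u) := by
  have := h.mono
  exact ⟨{ Z := Z, g := v, w := h.zero,
           isLimit := KernelFork.IsLimit.ofι' u h.zero
            (fun t ht => ⟨(h.lift t ht).choose, (h.lift t ht).choose_spec⟩) }⟩

lemma KernelOf.of_normal {A E : C} {u : A ⟶ E} (h : NormalMono u) : KernelOf u h.g where
  mono := mono_of_isLimit_fork h.isLimit
  zero := h.w
  lift t ht := ⟨(KernelFork.IsLimit.lift' h.isLimit t ht).1,
    (KernelFork.IsLimit.lift' h.isLimit t ht).2⟩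

/-- Tensoring preserves kernels. -/
lemma KernelOf.whiskerRight {A E Z : C} {u : A ⟶ E} {v : E ⟶ Z} (h : KernelOf u v) (Y : C) :
    KernelOf (u ▷ Y) (v ▷ Y) := by
  let _ : ExactPairing Yᘁ Y := BraidedCategory.exactPairing_swap Y Yᘁ
  have := h.mono
  refine ⟨mono_whiskerRight' u Y, ?_, ?_⟩
  · rw [← comp_whiskerRight, h.zero, MonoidalPreadditive.zero_whiskerRight]
  · intro T t ht
    have e0 : (tensorRightHomEquiv T Yᘁ Y Z).symm 0 = 0 := by
      rw [Equiv.symm_apply_eq]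
      simp [tensorRightHomEquiv]
    have e1 : ∀ {A E : C} (u : A ⟶ E) (g : T ⟶ A ⊗ Y), (tensorRightHomEquiv T Yᘁ Y A).symm g ≫ u =
        (tensorRightHomEquiv T Yᘁ Y E).symm (g ≫ u ▷ Y) := by
      intro A E u g
      rw [Equiv.eq_symm_apply, tensorRightHomEquiv_naturality, Equiv.apply_symm_apply]
    obtain ⟨s, hs⟩ := h.lift ((tensorRightHomEquiv T Yᘁ Y E).symm t) (by rw [e1, ht, e0])
    refine ⟨tensorRightHomEquiv T Yᘁ Y A s, ?_⟩
    rw [← tensorRightHomEquiv_naturality, hs, Equiv.apply_symm_apply]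

section unit

variable (hend : ∀ f : 𝟙_ C ⟶ 𝟙_ C, ∃ c : ℚ, f = c • 𝟙 (𝟙_ C))

include hend in
/-- A non-zero morphism from the unit object which has a kernel is a monomorphism. -/
theorem mono_of_kernel {K M : C} (f : 𝟙_ C ⟶ M) (hf : f ≠ 0) (k : K ⟶ 𝟙_ C) (hk : KernelOf k f) :
    Mono f := by
  have hkm := hk.mono
  have h1 : f ▷ K = 0 := by
    have := mono_whiskerLeft k M
    rw [← cancel_mono (M ◁ k), zero_comp, ← whisker_exchange, whiskerRight_id, id_whiskerLeft]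
    simp only [Category.assoc, unitors_inv_equal, Iso.inv_hom_id_assoc]
    rw [reassoc_of% hk.zero, zero_comp, comp_zero]
  obtain ⟨h, hh⟩ := (hk.whiskerRight K).lift (𝟙 _) (by rw [h1, comp_zero])
  have hm := mono_whiskerRight' k K
  have h2 : k ▷ K ≫ h = 𝟙 _ := by
    rw [← cancel_mono (k ▷ K), Category.assoc, hh, Category.comp_id, Category.id_comp]
  set r : 𝟙_ C ⟶ K := pt (h ≫ (β_ K K).hom) with hr
  have h3 : k ≫ r = 𝟙 K := by
    rw [hr, ← pt_left, reassoc_of% h2, pt_braiding]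
  obtain ⟨c, hc⟩ := hend (r ≫ k)
  have h4 : c = 0 := by
    by_contra hc0
    apply hf
    have h5 : c • f = 0 := by
      have : c • f = (r ≫ k) ≫ f := by rw [hc, Linear.smul_comp, Category.id_comp]
      rw [this, Category.assoc, hk.zero, comp_zero]
    rcases smul_eq_zero.1 h5 with h6 | h6
    · exact absurd h6 hc0
    · exact h6
  have h5 : k = 0 := by
    have : k = k ≫ (r ≫ k) := by rw [reassoc_of% h3]
    rw [this, hc, h4, zero_smul, comp_zero]
  refine Preadditive.mono_of_cancel_zero _ ?_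
  intro T g hg
  obtain ⟨s, rfl⟩ := hk.lift g hg
  rw [h5, comp_zero]

/-- The image of `f : 𝟙 ⟶ M`: `e` is a monomorphism and an epimorphism, and `I` is invertible. -/
theorem image_unit {M P I : C} (f : 𝟙_ C ⟶ M) [Mono f] (π : M ⟶ P)
    (hdesc : ∀ {Z : C} (g : M ⟶ Z), f ≫ g = 0 → ∃ h : P ⟶ Z, π ≫ h = g)
    (ι : I ⟶ M) (hι : KernelOf ι π) (e : 𝟙_ C ⟶ I) (he : e ≫ ι = f) :
    Mono e ∧ Epi e ∧ evl I ≫ η_ I (Iᘁ) = 𝟙 _ := by
  have hιm := hι.mono
  have hem : Mono e := by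
    have : Mono (e ≫ ι) := by rw [he]; infer_instance
    exact mono_of_mono e ι
  obtain ⟨s', hs'⟩ := hdesc ((λ_ M).inv ≫ f ▷ M - (ρ_ M).inv ≫ M ◁ f) (by
    rw [Preadditive.comp_sub, unit_two_sides f f, sub_self])
  have h1 : ι ≫ ((λ_ M).inv ≫ f ▷ M - (ρ_ M).inv ≫ M ◁ f) = 0 := by
    rw [← hs', reassoc_of% hι.zero, zero_comp]
  rw [Preadditive.comp_sub, sub_eq_zero] at h1
  have hmm : Mono (ι ▷ I ≫ M ◁ ι) := by
    have := mono_whiskerRight' ι I
    have := mono_whiskerLeft ι M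
    exact mono_comp _ _
  have h2 : (λ_ I).inv ≫ e ▷ I = (ρ_ I).inv ≫ I ◁ e := by
    rw [← cancel_mono (ι ▷ I ≫ M ◁ ι)]
    have e1 : ((λ_ I).inv ≫ e ▷ I) ≫ ι ▷ I ≫ M ◁ ι = ι ≫ (λ_ M).inv ≫ f ▷ M := by
      rw [leftUnitor_inv_naturality_assoc, whisker_exchange, ← he, comp_whiskerRight]
      simp only [Category.assoc]
    have e2 : ((ρ_ I).inv ≫ I ◁ e) ≫ ι ▷ I ≫ M ◁ ι = ι ≫ (ρ_ M).inv ≫ M ◁ f := by
      rw [rightUnitor_inv_naturality_assoc, ← whisker_exchange, ← whisker_exchange, ← he,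
        MonoidalCategory.whiskerLeft_comp]
      simp only [Category.assoc]
    rw [e1, e2, h1]
  have hepi : Epi e := by
    refine Preadditive.epi_of_cancel_zero _ ?_
    intro Z u hu
    have e1 : u ≫ (λ_ Z).inv ≫ e ▷ Z = (ρ_ I).inv ≫ I ◁ (e ≫ u) := by
      rw [MonoidalCategory.whiskerLeft_comp, ← Category.assoc, ← Category.assoc _ (I ◁ e), ← h2,
        leftUnitor_inv_naturality, Category.assoc, Category.assoc, whisker_exchange]
    rw [hu, MonoidalPreadditive.whiskerLeft_zero, comp_zero] at e1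
    have := mono_whiskerRight' e Z
    rw [← cancel_mono ((λ_ Z).inv ≫ e ▷ Z), e1, zero_comp]
  have hβ : (β_ I I).hom = 𝟙 _ := by
    have := epi_whiskerRight e I
    rw [← cancel_epi (e ▷ I), Category.comp_id, BraidedCategory.braiding_naturality_left,
      braiding_tensorUnit_left, Category.assoc, ← h2, Iso.hom_inv_id_assoc]
  exact ⟨hem, hepi, evl_coev hβ⟩

end unit

end

end Pool.Agent.H839.Kim
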