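import Pool.Agent.H839.Kim.Decomp

/-!
# Without phantoms every object is finite-dimensional in the sense of Kimura
-/

open CategoryTheory MonoidalCategory Limits

universe v u w

namespace Pool.Agent.H839.Kim

open Pool.Agent.Q227.AB

set_option autoImplicit false
set_option linter.unusedSectionVars false

noncomputable section

variable {C : Type u} [Category.{v} C] [Preadditive C] [Linear ℚ C] [MonoidalCategory C]
  [SymmetricCategory C] [RightRigidCategory C] [MonoidalPreadditive C]
  {K : Type w} [Field K] [CharZero K] [IsAlgClosed K] {q : ℕ} (R : FrobeniusCohomology C K q)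

lemma fr_tpow (M : C) (n : ℕ) : R.fr (tpow M n) = fp (R.fr M) n := by
  induction n with
  | zero => exact R.frob_unit
  | succ n ih =>
    rw [fp_succ, ← ih]
    unfold FrobeniusCohomology.fr
    have := R.frob_tensor (tpow M n) M
    rw [MonoidalCategory.tensorHom_def] at this
    exact this

lemma betti_eq_sum (M : C) : R.betti M = ∑ i ∈ R.degs M, ∑ x ∈ R.eigs M, R.m i M x := by
  unfold FrobeniusCohomology.betti
  rw [finsum_eq_sum_of_support_subset (s := R.degs M)]
  · apply Finset.sum_congr rfl
    intro i _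
    exact R.finrank_eq i M _ (Finset.Subset.refl _)
  · intro i hi
    by_contra hc
    have := R.subsingleton_of_notMem hc
    exact hi Module.finrank_zero_of_subsingleton

/-- If the cohomology of `M` is in even (odd) degrees, then an exterior (symmetric) power of `M`
vanishes. -/
theorem permSum_eq_zero [IsIdempotentComplete C] (hq : 1 < q) (hR : NoPhantoms R) (s : ℤ) (hs : s * s = 1) (M : C)
    (hM : ∀ i ∈ R.degs M, (Int.negOnePow i : ℤ) = -s) : permSum s M (R.betti M + 1) = 0 := by
  classical
  set n := R.betti M + 1 with hn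
  let mt : K → ℕ := fun x => ∑ i ∈ R.degs M, R.m i M x
  let ι : Type w := Σ x : R.eigs M, Fin (mt x)
  let e : Fin (Fintype.card ι) ≃ ι := (Fintype.equivFin ι).symm
  -- the number of the eigenvalues
  have hcard : Fintype.card ι = R.betti M := by
    rw [Fintype.card_sigma, betti_eq_sum R, Finset.sum_comm]
    simp only [Fintype.card_fin]
    exact Finset.sum_coe_sort (R.eigs M) mt
  have hchi : ∀ x, R.chi M x = -s * mt x := by
    intro x
    unfold FrobeniusCohomology.chi
    simp only [mt]
    push_cast
    rw [Finset.mul_sum]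
    exact Finset.sum_congr rfl fun i hi => by rw [hM i hi]
  -- the traces vanish
  have htr : ∀ k : ℕ, R.a s (pw (R.fr M) k) n = 0 := by
    intro k
    let α : Fin (Fintype.card ι) → K := fun y => ((e y).1 : K) ^ k
    have hα : ∀ j, 1 ≤ j → (R.t (pw (pw (R.fr M) k) j) : K) = -(s : K) * ps α j := by
      intro j _
      rw [pw_pw, R.trace_pw M (R.eigs M) (Finset.Subset.refl _) (k * j) (R.tr_eq _)]
      have h1 : ps α j = ∑ x ∈ R.eigs M, (mt x : K) * x ^ (k * j) := by
        unfold ps
        simp only [α]
        rw [e.sum_comp (fun y : ι => (((y.1 : K)) ^ k) ^ j), Fintype.sum_sigma]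
        simp only [Finset.sum_const, Finset.card_univ, Fintype.card_fin, nsmul_eq_mul]
        rw [Finset.sum_coe_sort (R.eigs M) (fun x => (mt x : K) * (x ^ k) ^ j)]
        exact Finset.sum_congr rfl fun x _ => by rw [pow_mul]
      rw [h1, Finset.mul_sum]
      apply Finset.sum_congr rfl
      intro x _
      rw [hchi x]
      push_cast
      ring
    have h2 := (R.closed s hs (pw (R.fr M) k) α hα n).1
    rw [el_big α (by rw [Fintype.card_fin, hcard, hn]; exact Nat.lt_succ_self _), mul_zero] at h2
    exact_mod_cast h2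
  -- the normalized symmetrizer
  have hfac : (n.factorial : ℚ) ≠ 0 := by exact_mod_cast Nat.factorial_ne_zero n
  have hcast : ∀ f : tpow M n ⟶ tpow M n, (n.factorial : ℤ) • f = (n.factorial : ℚ) • f := by
    intro f
    rw [← Int.cast_smul_eq_zsmul ℚ]
    norm_cast
  have he : ((n.factorial : ℚ)⁻¹ • permSum s M n) ≫ ((n.factorial : ℚ)⁻¹ • permSum s M n) =
      (n.factorial : ℚ)⁻¹ • permSum s M n := by
    rw [Linear.smul_comp, Linear.comp_smul, permSum_sq s hs M n, hcast,
      smul_smul ((n.factorial : ℚ)⁻¹) (n.factorial : ℚ), inv_mul_cancel₀ hfac, one_smul]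
  have h0 := idem_eq_zero R hq hR _ he (fun m => by
    rw [Linear.smul_comp, R.t_smul, R.t_comm, fr_tpow R, pw_fp]
    have := htr (m + 1)
    unfold FrobeniusCohomology.a at this
    rw [this, mul_zero])
  have h1 : (n.factorial : ℚ) • ((n.factorial : ℚ)⁻¹ • permSum s M n) = 0 := by
    rw [h0, smul_zero]
  rwa [smul_smul, mul_inv_cancel₀ hfac, one_smul] at h1

lemma degs_of_split {M P : C} {e : M ⟶ M} {p : M ⟶ P} {i : P ⟶ M} (h1 : p ≫ i = e)
    (h2 : i ≫ p = 𝟙 P) (s : ℤ)
    (hH : ∀ j : ℤ, (Int.negOnePow j : ℤ) ≠ -s → (R.H j).map e = 0) :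
    ∀ j ∈ R.degs P, (Int.negOnePow j : ℤ) = -s := by
  intro j hj
  by_contra hc
  have h3 := hH j hc
  have h4 : ¬ Subsingleton ((R.H j).obj P) := (R.bounded P).mem_toFinset.1 hj
  apply h4
  have h5 : 𝟙 P = i ≫ e ≫ p := by
    rw [← h1, Category.assoc, h2, Category.comp_id, h2]
  have h6 : 𝟙 ((R.H j).obj P) = 0 := by
    rw [← CategoryTheory.Functor.map_id, h5, Functor.map_comp, Functor.map_comp, h3, zero_comp,
      comp_zero]
  exact ModuleCat.subsingleton_of_isZero ((IsZero.iff_id_eq_zero _).2 h6)

/-- Every object is finite-dimensional in the sense of Kimura. -/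
theorem kimura [IsIdempotentComplete C] [HasBinaryBiproducts C] (hq : 1 < q) (hR : NoPhantoms R)
    (M : C) : ∃ P N : C, Nonempty (M ≅ P ⊞ N) ∧
    ExtZero P (R.betti P + 1) ∧ SymZero N (R.betti N + 1) := by
  classical
  obtain ⟨π, -, hid, horth, hsum, -, hH⟩ := weight_decomposition R hq hR
  obtain ⟨hfin, hsum⟩ := hsum M
  set S := hfin.toFinset with hS
  have hsum' : ∑ i ∈ S, π M i = 𝟙 M := by
    rw [← hsum, finsum_eq_sum_of_support_subset]
    intro i hi
    simp only [hS, Set.Finite.coe_toFinset]
    exact hi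
  have hort : ∀ (A B : Finset ℤ), Disjoint A B →
      (∑ i ∈ A, π M i) ≫ (∑ i ∈ B, π M i) = 0 := by
    intro A B hAB
    rw [Preadditive.sum_comp]
    apply Finset.sum_eq_zero
    intro i hi
    rw [Preadditive.comp_sum]
    apply Finset.sum_eq_zero
    intro j hj
    exact horth M i j (fun h => (Finset.disjoint_left.1 hAB hi) (h ▸ hj))
  have hidem : ∀ (A : Finset ℤ), (∑ i ∈ A, π M i) ≫ (∑ i ∈ A, π M i) = ∑ i ∈ A, π M i := by
    intro A
    rw [Preadditive.sum_comp]
    apply Finset.sum_congr rfl
    intro i hi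
    rw [Preadditive.comp_sum, Finset.sum_eq_single_of_mem i hi
      (fun j _ hj => horth M i j hj.symm), hid]
  set A := S.filter (fun i => (Int.negOnePow i : ℤ) = 1) with hA
  set B := S.filter (fun i => ¬ (Int.negOnePow i : ℤ) = 1) with hB
  have hdis : Disjoint A B := Finset.disjoint_filter_filter_not _ _ _
  have hadd : (∑ i ∈ A, π M i) + (∑ i ∈ B, π M i) = 𝟙 M := by
    rw [← hsum', hA, hB, Finset.sum_filter_add_sum_filter_not]
  have hmap : ∀ (A : Finset ℤ) (j : ℤ), j ∉ A → (R.H j).map (∑ i ∈ A, π M i) = 0 := by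
    intro A j hj
    have := R.additive j
    rw [Functor.map_sum]
    apply Finset.sum_eq_zero
    intro i hi
    exact hH M i j (fun h => hj (h ▸ hi))
  obtain ⟨P, i, p, hip, hpi⟩ := IsIdempotentComplete.idempotents_split M _ (hidem A)
  obtain ⟨N, i', p', hip', hpi'⟩ := IsIdempotentComplete.idempotents_split M _ (hidem B)
  have hepi : Epi p := by
    constructor
    intro Z x y hxy
    rw [← Category.id_comp x, ← Category.id_comp y, ← hip, Category.assoc, Category.assoc, hxy]
  have hepi' : Epi p' := by
    constructor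
    intro Z x y hxy
    rw [← Category.id_comp x, ← Category.id_comp y, ← hip', Category.assoc, Category.assoc, hxy]
  have hmono : Mono i := by
    constructor
    intro Z x y hxy
    rw [← Category.comp_id x, ← Category.comp_id y, ← hip, ← Category.assoc, ← Category.assoc,
      hxy]
  have hmono' : Mono i' := by
    constructor
    intro Z x y hxy
    rw [← Category.comp_id x, ← Category.comp_id y, ← hip', ← Category.assoc, ← Category.assoc,
      hxy]
  have c1 : i ≫ p' = 0 := by
    rw [← cancel_epi p, ← cancel_mono i', comp_zero, zero_comp, Category.assoc, Category.assoc,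
      hpi', ← Category.assoc, hpi]
    exact hort A B hdis
  have c2 : i' ≫ p = 0 := by
    rw [← cancel_epi p', ← cancel_mono i, comp_zero, zero_comp, Category.assoc, Category.assoc,
      hpi, ← Category.assoc, hpi']
    exact hort B A hdis.symm
  refine ⟨P, N, ⟨⟨biprod.lift p p', biprod.desc i i', ?_, ?_⟩⟩, ?_, ?_⟩
  · rw [biprod.lift_desc, hpi, hpi', hadd]
  · apply biprod.hom_ext'
    · apply biprod.hom_ext
      · simp [hip]
      · simp [c1]
    · apply biprod.hom_ext
      · simp [c2]
      · simp [hip']
  · apply permSum_eq_zero R hq hR (-1) (by norm_num) P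
    apply degs_of_split R hpi hip (-1)
    intro j hj
    apply hmap
    intro hc
    apply hj
    rw [neg_neg]
    exact (Finset.mem_filter.1 hc).2
  · apply permSum_eq_zero R hq hR 1 (by norm_num) N
    apply degs_of_split R hpi' hip' 1
    intro j hj
    apply hmap
    intro hc
    apply hj
    have h := (Finset.mem_filter.1 hc).2
    rcases Int.even_or_odd j with he | ho
    · exact absurd (by rw [Int.negOnePow_even _ he]; rfl) h
    · rw [Int.negOnePow_odd _ ho]
      rfl


end

end Pool.Agent.H839.Kim
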