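import Pool.Agent.H839.Kim.Img

/-!
# Monomorphisms from objects with a vanishing exterior or symmetric power
-/

open CategoryTheory MonoidalCategory Limits

universe v u w

namespace Pool.Agent.H839.Kim

open Pool.Agent.Q227.AB

set_option autoImplicit false
set_option linter.unusedSectionVars false

noncomputable section

section sg

variable {C : Type u} [Category.{v} C] [MonoidalCategory C] [SymmetricCategory C]

/-- The transposition of the last two factors. -/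
def sg (P Q R : C) : (P ⊗ Q) ⊗ R ⟶ (P ⊗ R) ⊗ Q :=
  (α_ P Q R).hom ≫ P ◁ (β_ Q R).hom ≫ (α_ P R Q).inv

lemma swapR_eq (P Q : C) : swapR P Q = sg P Q Q := rfl

@[reassoc]
lemma sg_sg (P Q R : C) : sg P Q R ≫ sg P R Q = 𝟙 _ := by
  unfold sg
  simp [← whiskerLeft_comp_assoc]

@[reassoc]
lemma sg_nat1 {P P' : C} (a : P ⟶ P') (Q R : C) :
    (a ▷ Q) ▷ R ≫ sg P' Q R = sg P Q R ≫ (a ▷ R) ▷ Q := by
  unfold sg
  simp only [Category.assoc]
  rw [associator_naturality_left_assoc, ← whisker_exchange_assoc, associator_inv_naturality_left]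

@[reassoc]
lemma sg_nat2 (P : C) {Q Q' : C} (b : Q ⟶ Q') (R : C) :
    (P ◁ b) ▷ R ≫ sg P Q' R = sg P Q R ≫ (P ⊗ R) ◁ b := by
  unfold sg
  have h1 : P ◁ R ◁ b ≫ (α_ P R Q').inv = (α_ P R Q).inv ≫ (P ⊗ R) ◁ b := by simp
  simp only [Category.assoc]
  rw [associator_naturality_middle_assoc, ← whiskerLeft_comp_assoc,
    BraidedCategory.braiding_naturality_left, whiskerLeft_comp_assoc, h1]

@[reassoc]
lemma sg_nat3 (P Q : C) {R R' : C} (c : R ⟶ R') :
    (P ⊗ Q) ◁ c ≫ sg P Q R' = sg P Q R ≫ (P ◁ c) ▷ Q := by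
  unfold sg
  have h1 : (P ⊗ Q) ◁ c ≫ (α_ P Q R').hom = (α_ P Q R).hom ≫ P ◁ Q ◁ c := by simp
  have h2 : P ◁ c ▷ Q ≫ (α_ P R' Q).inv = (α_ P R Q).inv ≫ (P ◁ c) ▷ Q := by simp
  simp only [Category.assoc]
  rw [reassoc_of% h1, ← whiskerLeft_comp_assoc, BraidedCategory.braiding_naturality_right,
    whiskerLeft_comp_assoc, h2]

/-- The tensor powers of a morphism. -/
def tm {A B : C} (m : A ⟶ B) : ∀ n, tpow A n ⟶ tpow B n
  | 0 => 𝟙 _
  | n + 1 => tm m n ▷ A ≫ tpow B n ◁ m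

lemma tm_succ {A B : C} (m : A ⟶ B) (n : ℕ) : tm m (n + 1) = tm m n ▷ A ≫ tpow B n ◁ m := rfl

lemma swapR_tm {A B : C} (m : A ⟶ B) {X Y : C} (a : X ⟶ Y) :
    swapR X A ≫ (a ▷ A ≫ Y ◁ m) ▷ A ≫ (Y ⊗ B) ◁ m =
      ((a ▷ A ≫ Y ◁ m) ▷ A ≫ (Y ⊗ B) ◁ m) ≫ swapR Y B := by
  rw [swapR_eq, swapR_eq, comp_whiskerRight]
  simp only [Category.assoc]
  have h1 : (Y ◁ m) ▷ A ≫ (Y ⊗ B) ◁ m ≫ sg Y B B = sg Y A A ≫ (Y ◁ m) ▷ A ≫ (Y ⊗ B) ◁ m := by
    rw [sg_nat3, sg_nat2_assoc, ← whisker_exchange]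
  rw [h1, sg_nat1_assoc]

lemma cyc_tm {A B : C} (m : A ⟶ B) : ∀ n p : ℕ,
    cyc A n p ≫ tm m (n + 1) = tm m (n + 1) ≫ cyc B n p := by
  intro n
  induction n with
  | zero =>
    intro p
    cases p with
    | zero => rw [cyc_zero, cyc_zero, Category.id_comp, Category.comp_id]
    | succ p =>
      simp only [cyc]
      rw [Category.id_comp, Category.comp_id]
  | succ n ih =>
    intro p
    cases p with
    | zero => rw [cyc_zero, cyc_zero, Category.id_comp, Category.comp_id]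
    | succ p =>
      have h1 : (cyc A n p ▷ A) ≫ tm m (n + 1 + 1) = tm m (n + 1 + 1) ≫ (cyc B n p ▷ B) := by
        rw [tm_succ m (n + 1), ← Category.assoc, ← comp_whiskerRight, ih p, comp_whiskerRight]
        simp only [Category.assoc]
        rw [whisker_exchange]
      rw [cyc_succ, Category.assoc, h1, cyc_succ, tm_succ m (n + 1), tm_succ m n]
      rw [← Category.assoc, swapR_tm m (tm m n), Category.assoc]

end sg

section

variable {C : Type u} [Category.{v} C] [Preadditive C] [MonoidalCategory C]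
  [SymmetricCategory C] [MonoidalPreadditive C]

lemma permSum_tm (s : ℤ) {A B : C} (m : A ⟶ B) : ∀ n : ℕ,
    permSum s A n ≫ tm m n = tm m n ≫ permSum s B n := by
  intro n
  induction n with
  | zero => simp [permSum, tm]
  | succ n ih =>
    have h1 : (∑ p ∈ Finset.range (n + 1), s ^ p • cyc A n p) ≫ tm m (n + 1) =
        tm m (n + 1) ≫ ∑ p ∈ Finset.range (n + 1), s ^ p • cyc B n p := by
      rw [Preadditive.sum_comp, Preadditive.comp_sum]
      apply Finset.sum_congr rfl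
      intro p _
      rw [Preadditive.zsmul_comp, Preadditive.comp_zsmul, cyc_tm]
    rw [permSum_succ, Category.assoc, h1, permSum_succ, ← Category.assoc, tm_succ,
      ← Category.assoc, ← comp_whiskerRight, ih, comp_whiskerRight]
    simp only [Category.assoc]
    rw [whisker_exchange_assoc]

/-- The recursion for the sum over all permutations. -/
theorem exists_factor (s : ℤ) {A B T : C} (m : A ⟶ B) (u : T ⟶ B) : ∀ (r : ℕ)
    (_ : tpow A r ◁ u ≫ tm m r ▷ B ≫ permSum s B (r + 1) = 0),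
    ∃ c : tpow A r ⊗ T ⟶ tpow B r ⊗ A,
      c ≫ tpow B r ◁ m = (permSum s A r ≫ tm m r) ▷ T ≫ tpow B r ◁ u := by
  intro r hr
  set φ := permSum s A r ≫ tm m r with hφ
  have h1 : (φ ▷ T ≫ tpow B r ◁ u) ≫ (∑ p ∈ Finset.range (r + 1), s ^ p • cyc B r p) = 0 := by
    rw [← hr, permSum_succ, ← Category.assoc (tm m r ▷ B), ← comp_whiskerRight, ← permSum_tm,
      ← hφ, whisker_exchange_assoc, Category.assoc]
  rw [Preadditive.comp_sum, Finset.sum_range_succ', pow_zero, one_smul, cyc_zero,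
    Category.comp_id] at h1
  cases r with
  | zero =>
    refine ⟨0, ?_⟩
    rw [zero_comp]
    simpa using h1.symm
  | succ r =>
    obtain ⟨θ, hθ⟩ : ∃ θ : tpow A (r + 1) ⊗ T ⟶ tpow B (r + 1) ⊗ A, θ =
      (permSum s A (r + 1) ≫ tm m r ▷ A) ▷ T ≫ sg (tpow B r) A T ≫ (tpow B r ◁ u) ▷ A := ⟨_, rfl⟩
    have h2 : (φ ▷ T ≫ tpow B (r + 1) ◁ u) ≫ swapR (tpow B r) B = θ ≫ tpow B (r + 1) ◁ m := by
      have e1 : φ ▷ T = (permSum s A (r + 1) ≫ tm m r ▷ A) ▷ T ≫ (tpow B r ◁ m) ▷ T := by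
        rw [hφ, tm_succ, ← comp_whiskerRight, Category.assoc]
      have e2 : (tpow B r ⊗ B) ◁ u ≫ sg (tpow B r) B B =
          sg (tpow B r) B T ≫ (tpow B r ◁ u) ▷ B := sg_nat3 _ _ _
      rw [e1, swapR_eq]
      simp only [Category.assoc]
      rw [e2, sg_nat2_assoc, hθ]
      simp only [Category.assoc]
      rw [whisker_exchange]
    have h3 : ∀ p, (φ ▷ T ≫ tpow B (r + 1) ◁ u) ≫ cyc B (r + 1) (p + 1) =
        (θ ≫ cyc B r p ▷ A) ≫ tpow B (r + 1) ◁ m := by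
      intro p
      rw [cyc_succ, ← Category.assoc, h2, Category.assoc, Category.assoc, whisker_exchange]
    refine ⟨-∑ p ∈ Finset.range (r + 1), s ^ (p + 1) • (θ ≫ cyc B r p ▷ A), ?_⟩
    rw [Preadditive.neg_comp, Preadditive.sum_comp, neg_eq_iff_add_eq_zero, ← h1]
    congr 1
    apply Finset.sum_congr rfl
    intro p _
    rw [Preadditive.zsmul_comp, Preadditive.comp_zsmul, h3]

end

variable {C : Type u} [Category.{v} C] [Preadditive C] [Linear ℚ C] [MonoidalCategory C]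
  [SymmetricCategory C] [RightRigidCategory C] [MonoidalPreadditive C]

/-- If the name of `φ` is a kernel then we can divide by `φ`. -/
theorem divide {Y W A B T Z : C} (φ : Y ⟶ W) (h : W ⊗ Yᘁ ⟶ Z)
    (hf : KernelOf (η_ Y (Yᘁ) ≫ φ ▷ Yᘁ) h) (m : A ⟶ B) [Mono m] (u : T ⟶ B)
    (c : Y ⊗ T ⟶ W ⊗ A) (hc : c ≫ W ◁ m = φ ▷ T ≫ W ◁ u) : ∃ v : T ⟶ A, v ≫ m = u := by
  set f := η_ Y (Yᘁ) ≫ φ ▷ Yᘁ with hfd
  have hfm := hf.mono
  set ĉ : T ⟶ (W ⊗ Yᘁ) ⊗ A := (λ_ T).inv ≫ η_ Y (Yᘁ) ▷ T ≫ sg Y (Yᘁ) T ≫ c ▷ Yᘁ ≫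
    sg W A (Yᘁ) with hĉ
  have h1 : ĉ ≫ (W ⊗ Yᘁ) ◁ m = (λ_ T).inv ≫ f ▷ T ≫ (W ⊗ Yᘁ) ◁ u := by
    rw [hĉ]
    simp only [Category.assoc]
    rw [← sg_nat2, ← comp_whiskerRight_assoc, hc, comp_whiskerRight_assoc, ← sg_nat1_assoc,
      ← sg_nat3_assoc, sg_sg, Category.comp_id, hfd, comp_whiskerRight_assoc]
  have h2 : ĉ ≫ h ▷ A = 0 := by
    have := mono_whiskerLeft m Z
    rw [← cancel_mono (Z ◁ m), zero_comp, Category.assoc, ← whisker_exchange, ← Category.assoc,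
      h1]
    simp only [Category.assoc]
    rw [whisker_exchange, ← comp_whiskerRight_assoc, hf.zero,
      MonoidalPreadditive.zero_whiskerRight, zero_comp, comp_zero]
  obtain ⟨v', hv'⟩ := (hf.whiskerRight A).lift ĉ h2
  refine ⟨v' ≫ (λ_ A).hom, ?_⟩
  have := mono_whiskerRight' f B
  have h3 : ((v' ≫ (λ_ A).hom) ≫ m) ≫ (λ_ B).inv ≫ f ▷ B = u ≫ (λ_ B).inv ≫ f ▷ B := by
    have e1 : ((v' ≫ (λ_ A).hom) ≫ m) ≫ (λ_ B).inv ≫ f ▷ B = ĉ ≫ (W ⊗ Yᘁ) ◁ m := by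
      rw [← hv']
      simp only [Category.assoc]
      rw [leftUnitor_inv_naturality_assoc, Iso.hom_inv_id_assoc, whisker_exchange]
    rw [e1, h1, leftUnitor_inv_naturality_assoc, whisker_exchange]
  exact (cancel_mono ((λ_ B).inv ≫ f ▷ B)).1 h3

lemma name_ne_zero {Y W : C} {φ : Y ⟶ W} (hφ : φ ≠ 0) : η_ Y (Yᘁ) ≫ φ ▷ Yᘁ ≠ 0 := by
  intro h
  apply hφ
  have h1 : (λ_ Y).hom ≫ φ = (tensorRightHomEquiv (𝟙_ C) Y (Yᘁ) W).symm
      (η_ Y (Yᘁ) ≫ φ ▷ Yᘁ) := by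
    rw [Equiv.eq_symm_apply]
    change (ρ_ (𝟙_ C)).inv ≫ 𝟙_ C ◁ η_ Y (Yᘁ) ≫ (α_ (𝟙_ C) Y (Yᘁ)).inv ≫
      ((λ_ Y).hom ≫ φ) ▷ Yᘁ = _
    simp [unitors_equal]
  have h2 : (tensorRightHomEquiv (𝟙_ C) Y (Yᘁ) W).symm 0 = 0 := by
    rw [Equiv.symm_apply_eq]
    simp [tensorRightHomEquiv]
  rw [h, h2] at h1
  rw [← cancel_epi (λ_ Y).hom, h1, comp_zero]

lemma mono_tm {A B : C} (m : A ⟶ B) [Mono m] (n : ℕ) : Mono (tm m n) := by
  induction n with
  | zero => exact (inferInstance : Mono (𝟙 (𝟙_ C)))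
  | succ n ih =>
    rw [tm_succ]
    have h1 := mono_whiskerRight' (tm m n) A
    have h2 := mono_whiskerLeft m (tpow B n)
    exact mono_comp _ _

/-- **Monomorphisms from objects with a vanishing exterior or symmetric power are kernels**, if
the non-zero morphisms from the unit object are kernels. -/
theorem mono_isKernel (hone : 𝟙 (𝟙_ C) ≠ 0)
    (hcyc : ∀ {X : C} (f : 𝟙_ C ⟶ X), f ≠ 0 → ∃ (Z : C) (h : X ⟶ Z), KernelOf f h)
    (s : ℤ) {A B : C} (m : A ⟶ B) [Mono m] {N : ℕ} (hN : permSum s A N = 0) :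
    ∃ (W : C) (w : B ⟶ W), KernelOf m w := by
  classical
  -- the last non-zero power
  obtain ⟨r, hr, hr1⟩ : ∃ r, permSum s A r ≠ 0 ∧ permSum s A (r + 1) = 0 := by
    have hex : ∃ N, permSum s A N = 0 := ⟨N, hN⟩
    have h0 : Nat.find hex ≠ 0 := by
      intro h0
      have := Nat.find_spec hex
      rw [h0] at this
      exact hone this
    refine ⟨Nat.find hex - 1, Nat.find_min hex (by omega), ?_⟩
    rw [Nat.sub_add_cancel (by omega)]
    exact Nat.find_spec hex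
  set Y := tpow A r with hY
  set φ : Y ⟶ tpow B r := permSum s A r ≫ tm m r with hφ
  have hφ0 : φ ≠ 0 := by
    intro h
    apply hr
    have := mono_tm m r
    rw [← cancel_mono (tm m r), zero_comp]
    exact h
  obtain ⟨Z, h, hf⟩ := hcyc (η_ Y (Yᘁ) ≫ φ ▷ Yᘁ) (name_ne_zero hφ0)
  -- the morphism whose kernel is `m`
  set Ψ : Y ⊗ B ⟶ tpow B (r + 1) := tm m r ▷ B ≫ permSum s B (r + 1) with hΨ
  set w := tensorRightHomEquiv B Y (Yᘁ) (tpow B (r + 1)) ((β_ B Y).hom ≫ Ψ) with hw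
  have hcomp : ∀ {T : C} (u : T ⟶ B), u ≫ w = tensorRightHomEquiv T Y (Yᘁ) (tpow B (r + 1))
      ((β_ T Y).hom ≫ Y ◁ u ≫ Ψ) := by
    intro T u
    apply (tensorRightHomEquiv T Y (Yᘁ) (tpow B (r + 1))).symm.injective
    rw [tensorRightHomEquiv_symm_naturality, Equiv.symm_apply_apply, Equiv.symm_apply_apply,
      BraidedCategory.braiding_naturality_left_assoc]
  have h00 : ∀ T : C, tensorRightHomEquiv T Y (Yᘁ) (tpow B (r + 1)) 0 = 0 := by
    intro T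
    simp [tensorRightHomEquiv]
  refine ⟨_, w, ⟨inferInstance, ?_, ?_⟩⟩
  · have h1 : Y ◁ m ≫ Ψ = 0 := by
      rw [hΨ, whisker_exchange_assoc]
      have h2 := permSum_tm s m (r + 1)
      rw [tm_succ, Category.assoc] at h2
      rw [← h2, hr1, zero_comp]
    rw [hcomp, h1, comp_zero, h00]
  · intro T u hu
    have h1 : Y ◁ u ≫ Ψ = 0 := by
      have h2 := (hcomp u).symm.trans hu
      rw [← h00 T] at h2
      have h3 := (tensorRightHomEquiv T Y (Yᘁ) (tpow B (r + 1))).injective h2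
      rw [← cancel_epi (β_ T Y).hom, h3, comp_zero]
    obtain ⟨c, hc⟩ := exists_factor s m u r h1
    exact divide φ h hf m u c hc

end

end Pool.Agent.H839.Kim
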