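import Pool.Agent.H839.Kim.Kimura

/-!
# Nilpotence
-/

open CategoryTheory MonoidalCategory Limits

universe v u w

namespace Pool.Agent.H839.Kim

open Pool.Agent.Q227.AB

set_option autoImplicit false
set_option linter.unusedSectionVars false

noncomputable section

attribute [-instance] CategoryTheory.hasRightDualUnit

variable {C : Type u} [Category.{v} C] [Preadditive C] [Linear ℚ C] [MonoidalCategory C]
  [SymmetricCategory C] [RightRigidCategory C] [MonoidalPreadditive C]
  {K : Type w} [Field K] [CharZero K] [IsAlgClosed K] {q : ℕ} (R : FrobeniusCohomology C K q)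

lemma ptl_left {X P : C} [HasRightDual X] (ψ : P ⟶ P) (h : X ⊗ P ⟶ X ⊗ P) :
    ptl (X ◁ ψ ≫ h) = ψ ≫ ptl h := by
  have e2 : (β_ P X).hom ≫ (X ◁ ψ ≫ h) ≫ (β_ X P).hom =
      ψ ▷ X ≫ (β_ P X).hom ≫ h ≫ (β_ X P).hom := by
    simp only [Category.assoc]
    rw [← BraidedCategory.braiding_naturality_left_assoc]
  unfold ptl
  rw [e2, pt_left]

lemma ptl_zsmul {X P : C} [HasRightDual X] (c : ℤ) (f : X ⊗ P ⟶ X ⊗ P) :
    ptl (c • f) = c • ptl f :=
  map_zsmul (ptlHom X P) c f

lemma ptl_sum {X P : C} [HasRightDual X] {ι : Type*} (s : Finset ι)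
    (f : ι → (X ⊗ P ⟶ X ⊗ P)) : ptl (∑ i ∈ s, f i) = ∑ i ∈ s, ptl (f i) :=
  map_sum (ptlHom X P) f s

/-- The contraction of all factors but the last of `(f ⊗ ⋯ ⊗ f ⊗ 1)` times the sum of all
permutations. -/
def Dn (s : ℤ) {M : C} (f : M ⟶ M) (n : ℕ) : M ⟶ M :=
  ptl (X := tpow M n) (P := M) ((fp f n ▷ M) ≫ permSum s M (n + 1))

lemma Dn_term_zero (s : ℤ) {M : C} (f : M ⟶ M) (n : ℕ) :
    ptl (X := tpow M n) (P := M) ((fp f n ≫ permSum s M n) ▷ M ≫ cyc M n 0) =
      R.a s f n • 𝟙 M := by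
  rw [cyc_zero, Category.comp_id, ptl_tr R]
  rfl

lemma Dn_term_succ (s : ℤ) (hs : s * s = 1) {M : C} (f : M ⟶ M) (n r : ℕ) (hr : r ≤ n) :
    ptl (X := tpow M (n + 1)) (P := M) ((fp f (n + 1) ≫ permSum s M (n + 1)) ▷ M ≫
      cyc M (n + 1) (r + 1)) = s ^ r • (f ≫ Dn s f n) := by
  rw [ptl_comm, cyc_succ, Category.assoc, ← comp_whiskerRight]
  have e2 := ptl_swapR (X := tpow M n) (P := M) inferInstance
    (cyc M n r ≫ fp f (n + 1) ≫ permSum s M (n + 1))
  rw [e2, ← Category.assoc, cyc_fp, Category.assoc, cyc_permSum s hs M n r hr,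
    Preadditive.comp_zsmul, ptl_zsmul, fp_succ, ← whisker_exchange, Category.assoc, ptl_left]
  rfl

lemma permSum_expand (s : ℤ) {M : C} (f : M ⟶ M) (n : ℕ) :
    (fp f n ▷ M) ≫ permSum s M (n + 1) =
      ∑ p ∈ Finset.range (n + 1), s ^ p • ((fp f n ≫ permSum s M n) ▷ M ≫ cyc M n p) := by
  rw [permSum_succ, ← Category.assoc, ← comp_whiskerRight, Preadditive.comp_sum]
  exact Finset.sum_congr rfl fun p _ => by rw [Preadditive.comp_zsmul]

include R in
lemma Dn_zero (s : ℤ) {M : C} (f : M ⟶ M) : Dn s f 0 = 𝟙 M := by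
  unfold Dn
  rw [permSum_expand, Finset.sum_range_one, pow_zero, one_smul, Dn_term_zero R, R.a_zero,
    one_smul]

lemma Dn_succ (s : ℤ) (hs : s * s = 1) {M : C} (f : M ⟶ M) (n : ℕ) :
    Dn s f (n + 1) = R.a s f (n + 1) • 𝟙 M + (s * (n + 1)) • (f ≫ Dn s f n) := by
  have h1 : Dn s f (n + 1) = ∑ p ∈ Finset.range (n + 2), s ^ p •
      ptl (X := tpow M (n + 1)) (P := M) ((fp f (n + 1) ≫ permSum s M (n + 1)) ▷ M ≫
        cyc M (n + 1) p) := by
    conv_lhs => unfold Dn
    rw [permSum_expand, ptl_sum]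
    exact Finset.sum_congr rfl fun p _ => by rw [ptl_zsmul]
  rw [h1, Finset.sum_range_succ', pow_zero, one_smul, Dn_term_zero R, add_comm]
  congr 1
  have h2 : ∀ r ∈ Finset.range (n + 1), s ^ (r + 1) •
      ptl (X := tpow M (n + 1)) (P := M) ((fp f (n + 1) ≫ permSum s M (n + 1)) ▷ M ≫
        cyc M (n + 1) (r + 1)) = s • (f ≫ Dn s f n) := by
    intro r hr
    rw [Dn_term_succ s hs f n r (Nat.lt_succ_iff.1 (Finset.mem_range.1 hr)), smul_smul]
    congr 1
    have : s ^ (r + 1) * s ^ r = (s * s) ^ r * s := by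
      rw [mul_pow, pow_succ]
      ring
    rw [this, hs, one_pow, one_mul]
  rw [Finset.sum_congr rfl h2, Finset.sum_const, Finset.card_range, ← natCast_zsmul, smul_smul]
  congr 1
  push_cast
  ring

lemma c_eq_zero (s : ℤ) (hs : s * s = 1) {M : C} (f : M ⟶ M)
    (hf : ∀ j, 1 ≤ j → R.t (pw f j) = 0) : ∀ (n j : ℕ), 1 ≤ j → R.c s f (pw f j) n = 0 := by
  intro n
  induction n with
  | zero =>
    intro j hj
    rw [R.c_rec s hs, if_pos rfl, hf j hj, zero_mul, add_zero]
  | succ n ih =>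
    intro j hj
    rw [R.c_rec s hs, hf j hj, zero_mul, zero_add]
    rw [if_neg (Nat.succ_ne_zero n)]
    have h2 : pw f j ≫ f = pw f (j + 1) := rfl
    rw [h2, Nat.add_sub_cancel, ih (j + 1) (by omega), mul_zero]

lemma a_eq_zero (s : ℤ) (hs : s * s = 1) {M : C} (f : M ⟶ M)
    (hf : ∀ j, 1 ≤ j → R.t (pw f j) = 0) (n : ℕ) : R.a s f (n + 1) = 0 := by
  rw [R.a_succ]
  have h := c_eq_zero R s hs f hf n 1 le_rfl
  simpa [pw] using h

/-- **Cayley–Hamilton.** -/
theorem pw_eq_zero (s : ℤ) (hs : s * s = 1) {M : C} (f : M ⟶ M)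
    (hf : ∀ j, 1 ≤ j → R.t (pw f j) = 0) {n : ℕ} (hM : permSum s M (n + 1) = 0) :
    pw f n = 0 := by
  have h1 : ∀ n, Dn s f n = (s ^ n * n.factorial) • pw f n := by
    intro n
    induction n with
    | zero =>
      rw [Dn_zero R]
      simp [pw]
    | succ n ih =>
      rw [Dn_succ R s hs, a_eq_zero R s hs f hf, zero_smul, zero_add, ih,
        Preadditive.comp_zsmul, smul_smul, Nat.factorial_succ]
      have h2 : f ≫ pw f n = pw f (n + 1) := pw_comp_comm f n
      rw [h2]
      congr 1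
      push_cast
      ring
  have h2 : (s ^ n * (n.factorial : ℤ)) • pw f n = 0 := by
    rw [← h1 n]
    unfold Dn
    rw [hM, comp_zero, ptl_zero]
  have hs0 : s ≠ 0 := by
    rintro rfl
    simp at hs
  have h3 : (s ^ n * (n.factorial : ℤ)) ≠ 0 := mul_ne_zero (pow_ne_zero _ hs0)
    (by exact_mod_cast Nat.factorial_ne_zero n)
  have h4 : ((s ^ n * (n.factorial : ℤ) : ℤ) : ℚ) • pw f n = 0 := by
    rw [Int.cast_smul_eq_zsmul]
    exact h2
  rcases smul_eq_zero.1 h4 with h5 | h5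
  · exact absurd (by exact_mod_cast h5) h3
  · exact h5

lemma betti_le_of_retract {P M : C} (i : P ⟶ M) (p : M ⟶ P) (hip : i ≫ p = 𝟙 P) :
    R.betti P ≤ R.betti M := by
  rw [betti_eq_of_subset R P (R.degs P) (Finset.Subset.refl _)]
  refine le_trans (Finset.sum_le_sum fun j _ => ?_) (sum_le_betti R M (R.degs P))
  apply LinearMap.finrank_le_finrank_of_injective (f := ((R.H j).map i).hom)
  intro x y hxy
  have h1 : ∀ z, ((R.H j).map p).hom (((R.H j).map i).hom z) = z := by
    intro z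
    have h2 : (R.H j).map i ≫ (R.H j).map p = 𝟙 _ := by
      rw [← Functor.map_comp, hip, CategoryTheory.Functor.map_id]
    have h3 := congrArg ModuleCat.Hom.hom h2
    exact LinearMap.congr_fun h3 z
  rw [← h1 x, hxy, h1 y]

/-- **Nilpotence.** If there are no phantoms then numerically trivial endomorphisms are
nilpotent. -/
theorem nilp [IsIdempotentComplete C] (hq : 1 < q) (hR : NoPhantoms R) {M : C} (f : M ⟶ M)
    (hf : NumTriv f) : pw f (R.betti M) = 0 := by
  obtain ⟨π, hnat, hid, horth, hsum, -, hH⟩ := weight_decomposition R hq hR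
  obtain ⟨hfin, hsum⟩ := hsum M
  set b := R.betti M with hb
  have key : ∀ i, π M i ≫ pw f b = 0 := by
    intro i
    obtain ⟨P, ι, p, hιp, hpι⟩ := IsIdempotentComplete.idempotents_split M _ (hid M i)
    set g := ι ≫ f ≫ p with hg
    have h1 : ι ≫ f = g ≫ ι := by
      have : ι ≫ f = ι ≫ π M i ≫ f := by rw [← hpι, Category.assoc, reassoc_of% hιp]
      rw [this, hnat, ← hpι, hg]
      simp only [Category.assoc]
    have h1' : ∀ k, ι ≫ pw f k = pw g k ≫ ι := fun k => pw_naturality g f ι h1 k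
    have h2 : ∀ k, π M i ≫ pw f k = p ≫ pw g k ≫ ι := by
      intro k
      rw [← hpι, Category.assoc, h1']
    have h3 : ∀ j, 1 ≤ j → R.t (pw g j) = 0 := by
      intro j hj
      obtain ⟨k, rfl⟩ : ∃ k, j = k + 1 := ⟨j - 1, by omega⟩
      have h4 : pw g (k + 1) = ι ≫ (pw f (k + 1) ≫ p) := by
        rw [← Category.assoc, h1', Category.assoc, hιp, Category.comp_id]
      rw [h4, R.t_comm, Category.assoc, hpι]
      have h5 : pw f (k + 1) ≫ π M i = f ≫ (pw f k ≫ π M i) := by
        have : pw f (k + 1) = f ≫ pw f k := (pw_comp_comm f k).symm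
        rw [this, Category.assoc]
      rw [h5]
      apply R.t_eq
      rw [hf, zero_smul]
    set s : ℤ := -(Int.negOnePow i : ℤ) with hs
    have hss : s * s = 1 := by
      have : (Int.negOnePow i : ℤ) * (Int.negOnePow i : ℤ) = 1 := by
        rcases Int.even_or_odd i with h | h
        · rw [Int.negOnePow_even _ h]; rfl
        · rw [Int.negOnePow_odd _ h]; rfl
      rw [hs]
      linear_combination this
    have hdeg := degs_of_split R hpι hιp s (by
      intro j hj
      apply hH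
      rintro rfl
      apply hj
      rw [hs, neg_neg])
    have h6 := permSum_eq_zero R hq hR s hss P hdeg
    have h7 := pw_eq_zero R s hss g h3 h6
    have h8 : R.betti P ≤ b := betti_le_of_retract R ι p hιp
    have h9 : pw g b = 0 := by
      obtain ⟨c, hc⟩ := Nat.exists_eq_add_of_le h8
      rw [hc, pw_add, h7, zero_comp]
    rw [h2, h9, zero_comp, comp_zero]
  rw [← Category.id_comp (pw f b), ← hsum, finsum_eq_sum_of_support_subset _
    (s := hfin.toFinset) (by intro i hi; simpa using hi), Preadditive.sum_comp]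
  exact Finset.sum_eq_zero fun i _ => key i

end

end Pool.Agent.H839.Kim
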