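import Pool.Agent.H839.Kim.Ptl

/-!
# The permutations of the factors of a tensor power
-/

open CategoryTheory MonoidalCategory Limits

universe v u w

namespace Pool.Agent.H839.Kim

open Pool.Agent.Q227.AB

set_option autoImplicit false

noncomputable section

section

variable {C : Type u} [Category.{v} C] [MonoidalCategory C] [SymmetricCategory C]

/-- The permutations of the factors: the compositions of transpositions of neighbouring factors. -/
inductive IsPerm (M : C) (n : ℕ) : (tpow M n ⟶ tpow M n) → Prop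
  | one : IsPerm M n (𝟙 _)
  | mul (t g : tpow M n ⟶ tpow M n) : IsTr M n t → IsPerm M n g → IsPerm M n (t ≫ g)

variable {M : C}

lemma IsPerm.comp {n : ℕ} {f g : tpow M n ⟶ tpow M n} (hf : IsPerm M n f) (hg : IsPerm M n g) :
    IsPerm M n (f ≫ g) := by
  induction hf with
  | one => rwa [Category.id_comp]
  | mul t f ht _ ih =>
    rw [Category.assoc]
    exact IsPerm.mul t _ ht ih

lemma isPerm_of_isTr {n : ℕ} {t : tpow M n ⟶ tpow M n} (ht : IsTr M n t) : IsPerm M n t := by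
  rw [← Category.comp_id t]
  exact IsPerm.mul t _ ht IsPerm.one

lemma IsPerm.whisk {n : ℕ} {g : tpow M n ⟶ tpow M n} (hg : IsPerm M n g) :
    IsPerm M (n + 1) (g ▷ M) := by
  induction hg with
  | one =>
    rw [id_whiskerRight]
    exact IsPerm.one
  | mul t g ht _ ih =>
    rw [comp_whiskerRight]
    exact IsPerm.mul _ _ (IsTr.whisk n t ht) ih

lemma isPerm_swapR (M : C) (n : ℕ) : IsPerm M (n + 2) (swapR (tpow M n) M) :=
  isPerm_of_isTr (IsTr.last n)

lemma isTr_sq {n : ℕ} {t : tpow M n ⟶ tpow M n} (ht : IsTr M n t) : t ≫ t = 𝟙 _ := by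
  induction ht with
  | last n => exact swapR_swapR _ _
  | whisk n t _ ih => rw [← comp_whiskerRight, ih, id_whiskerRight]

lemma IsPerm.inv {n : ℕ} {g : tpow M n ⟶ tpow M n} (hg : IsPerm M n g) :
    ∃ h, IsPerm M n h ∧ g ≫ h = 𝟙 _ ∧ h ≫ g = 𝟙 _ := by
  induction hg with
  | one => exact ⟨𝟙 _, IsPerm.one, Category.comp_id _, Category.comp_id _⟩
  | mul t g ht _ ih =>
    obtain ⟨h, h1, h2, h3⟩ := ih
    refine ⟨h ≫ t, h1.comp (isPerm_of_isTr ht), ?_, ?_⟩
    · rw [Category.assoc, reassoc_of% h2, isTr_sq ht]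
    · rw [Category.assoc, ← Category.assoc t, isTr_sq ht, Category.id_comp, h3]

lemma cyc_isPerm (M : C) : ∀ n p : ℕ, IsPerm M (n + 1) (cyc M n p)
  | n, 0 => by
    rw [cyc_zero]
    exact IsPerm.one
  | 0, p + 1 => IsPerm.one
  | n + 1, p + 1 => (isPerm_swapR M n).comp (cyc_isPerm M n p).whisk

lemma not_isTr_zero {t : tpow M 0 ⟶ tpow M 0} (h : IsTr M 0 t) : False := by
  cases h

lemma isPerm_zero {g : tpow M 0 ⟶ tpow M 0} (h : IsPerm M 0 g) : g = 𝟙 _ := by
  cases h with
  | one => rfl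
  | mul t g ht _ => exact (not_isTr_zero ht).elim

lemma not_isTr_one {t : tpow M 1 ⟶ tpow M 1} (h : IsTr M 1 t) : False := by
  cases h with
  | whisk n t h => exact not_isTr_zero h

lemma isPerm_one {g : tpow M 1 ⟶ tpow M 1} (h : IsPerm M 1 g) : g = 𝟙 _ := by
  cases h with
  | one => rfl
  | mul t g ht _ => exact (not_isTr_one ht).elim

/-- Every permutation of `n + 1` factors is a permutation of the first `n` factors followed by a
cyclic permutation. -/
lemma IsPerm.normal : ∀ (n : ℕ) {g : tpow M (n + 1) ⟶ tpow M (n + 1)}, IsPerm M (n + 1) g →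
    ∃ w p, IsPerm M n w ∧ p ≤ n ∧ g = w ▷ M ≫ cyc M n p
  | 0, g, hg => by
    refine ⟨𝟙 _, 0, IsPerm.one, le_rfl, ?_⟩
    rw [isPerm_one hg, cyc_zero, id_whiskerRight, Category.comp_id]
  | n + 1, g, hg => by
    induction hg with
    | one =>
      refine ⟨𝟙 _, 0, IsPerm.one, Nat.zero_le _, ?_⟩
      rw [cyc_zero, id_whiskerRight, Category.comp_id]
    | mul t g ht _ ih =>
      obtain ⟨w, p, hw, hp, rfl⟩ := ih
      cases ht with
      | last n =>
        obtain ⟨u, r, hu, hr, rfl⟩ := IsPerm.normal n hw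
        have h1 : swapR (tpow M n) M ≫ (u ▷ M ≫ cyc M n r) ▷ M ≫ cyc M (n + 1) p =
            (u ▷ M) ▷ M ≫ swapR (tpow M n) M ≫ (cyc M n r) ▷ M ≫ cyc M (n + 1) p := by
          rw [comp_whiskerRight, Category.assoc, ← reassoc_of% swapR_naturality u M]
        by_cases hpr : p ≤ r
        · refine ⟨u ▷ M ≫ cyc M n p, r + 1, hu.whisk.comp (cyc_isPerm M n p), by omega, ?_⟩
          rw [h1, cyc_exchange M n r p hpr hr, comp_whiskerRight, Category.assoc]
        · obtain ⟨p, rfl⟩ : ∃ p', p = p' + 1 := ⟨p - 1, by omega⟩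
          refine ⟨u ▷ M ≫ cyc M n p, r, hu.whisk.comp (cyc_isPerm M n p), by omega, ?_⟩
          rw [h1, cyc_exchange' M n p r (by omega) (by omega), comp_whiskerRight, Category.assoc]
      | whisk _ t' ht' =>
        refine ⟨t' ≫ w, p, IsPerm.mul _ _ ht' hw, hp, ?_⟩
        rw [comp_whiskerRight, Category.assoc]

/-- There are only finitely many permutations. -/
lemma finite_isPerm (M : C) (n : ℕ) : {g | IsPerm M n g}.Finite := by
  induction n with
  | zero => exact (Set.finite_singleton (𝟙 (tpow M 0))).subset fun g hg => isPerm_zero hg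
  | succ n ih =>
    refine ((ih.image2 (fun w p => w ▷ M ≫ cyc M n p) (Set.finite_le_nat n))).subset ?_
    intro g hg
    obtain ⟨w, p, hw, hp, rfl⟩ := IsPerm.normal n hg
    exact ⟨w, hw, p, hp, rfl⟩

/-- The permutations of `n + 1` factors of the form `y s z`, where `s` is the transposition of the
last two factors and `y`, `z` are permutations of the first `n` factors. -/
def NotFix (M : C) : ∀ n : ℕ, (tpow M (n + 1) ⟶ tpow M (n + 1)) → Prop
  | 0, _ => False
  | n + 1, g => ∃ y z, IsPerm M (n + 1) y ∧ IsPerm M (n + 1) z ∧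
      g = y ▷ M ≫ swapR (tpow M n) M ≫ z ▷ M

lemma NotFix.left {n : ℕ} {g : tpow M (n + 1) ⟶ tpow M (n + 1)} (hg : NotFix M n g)
    {w : tpow M n ⟶ tpow M n} (hw : IsPerm M n w) : NotFix M n (w ▷ M ≫ g) := by
  cases n with
  | zero => exact hg.elim
  | succ n =>
    obtain ⟨y, z, hy, hz, rfl⟩ := hg
    exact ⟨w ≫ y, z, hw.comp hy, hz, by rw [comp_whiskerRight, Category.assoc]⟩

lemma NotFix.isPerm {n : ℕ} {g : tpow M (n + 1) ⟶ tpow M (n + 1)} (hg : NotFix M n g) :
    IsPerm M (n + 1) g := by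
  cases n with
  | zero => exact hg.elim
  | succ n =>
    obtain ⟨y, z, hy, hz, rfl⟩ := hg
    exact hy.whisk.comp ((isPerm_swapR M n).comp hz.whisk)

/-- Different cyclic permutations are in different cosets. -/
lemma notFix_cyc (M : C) : ∀ (n p p₀ : ℕ), p ≤ n → p₀ ≤ n → p ≠ p₀ →
    ∀ c' : tpow M (n + 1) ⟶ tpow M (n + 1), cyc M n p₀ ≫ c' = 𝟙 _ → NotFix M n (cyc M n p ≫ c')
  | 0, p, p₀, hp, hp₀, hne, c', _ => by omega
  | n + 1, 0, 0, _, _, hne, _, _ => (hne rfl).elim
  | n + 1, p + 1, 0, _, _, _, c', h => by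
    rw [cyc_zero, Category.id_comp] at h
    refine ⟨𝟙 _, cyc M n p, IsPerm.one, cyc_isPerm M n p, ?_⟩
    rw [h, Category.comp_id, id_whiskerRight, Category.id_comp, cyc_succ]
  | n + 1, 0, p₀ + 1, _, _, _, c', h => by
    obtain ⟨d, hd, h1, h2⟩ := (cyc_isPerm M n p₀).inv
    have h3 : c' = d ▷ M ≫ swapR (tpow M n) M := by
      have h4 : (d ▷ M ≫ swapR (tpow M n) M) ≫ cyc M (n + 1) (p₀ + 1) = 𝟙 _ := by
        rw [cyc_succ, Category.assoc, ← Category.assoc (swapR (tpow M n) M), swapR_swapR,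
          Category.id_comp, ← comp_whiskerRight, h2, id_whiskerRight]
      rw [← Category.id_comp c', ← h4, Category.assoc, h, Category.comp_id]
    refine ⟨d, 𝟙 _, hd, IsPerm.one, ?_⟩
    rw [cyc_zero, Category.id_comp, h3, id_whiskerRight, Category.comp_id]
  | 0 + 1, p + 1, p₀ + 1, hp, hp₀, hne, c', _ => by omega
  | (n + 1) + 1, p + 1, p₀ + 1, hp, hp₀, hne, c', h => by
    obtain ⟨d, hd, h1, h2⟩ := (cyc_isPerm M (n + 1) p₀).inv
    have h3 : c' = d ▷ M ≫ swapR (tpow M (n + 1)) M := by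
      have h4 : (d ▷ M ≫ swapR (tpow M (n + 1)) M) ≫ cyc M (n + 1 + 1) (p₀ + 1) = 𝟙 _ := by
        rw [cyc_succ, Category.assoc, ← Category.assoc (swapR (tpow M (n + 1)) M), swapR_swapR,
          Category.id_comp, ← comp_whiskerRight, h2, id_whiskerRight]
      rw [← Category.id_comp c', ← h4, Category.assoc, h, Category.comp_id]
    obtain ⟨y, z, hy, hz, hyz⟩ := notFix_cyc M (n + 1) p p₀ (by omega) (by omega) (by omega) d h1
    refine ⟨y ▷ M ≫ swapR (tpow M n) M, swapR (tpow M n) M ≫ z ▷ M,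
      hy.whisk.comp (isPerm_swapR M n), (isPerm_swapR M n).comp hz.whisk, ?_⟩
    rw [cyc_succ, h3]
    have e1 : (swapR (tpow M (n + 1)) M ≫ cyc M (n + 1) p ▷ M) ≫
        d ▷ M ≫ swapR (tpow M (n + 1)) M =
        swapR (tpow M (n + 1)) M ≫ (cyc M (n + 1) p ≫ d) ▷ M ≫ swapR (tpow M (n + 1)) M := by
      rw [comp_whiskerRight]
      simp only [Category.assoc]
    have e2 := braid (tpow M n) M
    have e3 := swapR_naturality z M
    rw [e1, hyz]
    simp only [comp_whiskerRight, Category.assoc]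
    rw [← reassoc_of% swapR_naturality y M]
    change _ = _ ≫ _ ≫ swapR (tpow M n ⊗ M) M ≫ _
    rw [← reassoc_of% e2]
    change _ ≫ swapR (tpow M n ⊗ M) M ≫ _ ≫ (z ▷ M) ▷ M ≫ swapR (tpow M n ⊗ M) M = _
    rw [e3]

end

end

end Pool.Agent.H839.Kim
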