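import Pool.Agent.H839.Kim.Growth
import Pool.Agent.H839.Kim.Algebra

/-!
# Traces of Frobenius powers and phantoms
-/

open CategoryTheory MonoidalCategory Limits

universe v u w

namespace Pool.Agent.H839.Kim

open Pool.Agent.Q227.AB

set_option autoImplicit false

noncomputable section

/-- The number zero is not a Weil number. -/
lemma not_isWeilNumber_zero {q : ℕ} (hq : 1 < q) {K : Type w} [Field K] [CharZero K] (i : ℤ) :
    ¬ IsWeilNumber q i (0 : K) := by
  intro h
  have h1 := h.2 0 (by rw [minpoly.zero]; simp)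
  rw [norm_zero] at h1
  have hq' : (0 : ℝ) < q := by exact_mod_cast (by omega : 0 < q)
  exact (Real.rpow_pos_of_pos hq' _).ne h1

variable {C : Type u} [Category.{v} C] [Preadditive C] [Linear ℚ C] [MonoidalCategory C]
  [SymmetricCategory C] [RightRigidCategory C] [MonoidalPreadditive C]
  {K : Type w} [Field K] [CharZero K] [IsAlgClosed K] {q : ℕ}

/-- There are no phantoms: an object without cohomology is zero. -/
def NoPhantoms (R : FrobeniusCohomology C K q) : Prop :=
  ∀ M : C, (∀ i, Subsingleton ((R.H i).obj M)) → IsZero M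

variable (R : FrobeniusCohomology C K q)

omit [MonoidalPreadditive C] [IsAlgClosed K] in
lemma eigs_ne_zero (hq : 1 < q) {M : C} {i : ℤ} {α : K} (h : R.m i M α ≠ 0) : α ≠ 0 := by
  rintro rfl
  exact not_isWeilNumber_zero hq i (R.weight_of_m h)

omit [MonoidalPreadditive C] in
lemma chi_eq_zero (hq : 1 < q) {M : C} (h : ∀ n, tr (pw (R.fr M) (n + 1)) = 0) (α : K) :
    R.chi M α = 0 := by
  classical
  by_cases hα : α = 0
  · unfold FrobeniusCohomology.chi
    apply Finset.sum_eq_zero
    intro i _
    have : R.m i M α = 0 := by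
      by_contra hc
      exact eigs_ne_zero R hq hc hα
    rw [this]
    simp
  · set S : Finset K := insert α (R.eigs M) with hS
    have hsub : R.eigs M ⊆ S := by
      intro x hx
      simp [hS, hx]
    have key : ∀ n : ℕ, ∑ x ∈ S, ((R.chi M x : K) * x) * x ^ n = 0 := by
      intro n
      have h2 := R.trace_pw M S hsub (n + 1) (r := 0) (by rw [h n, zero_smul])
      rw [Rat.cast_zero] at h2
      rw [h2]
      exact Finset.sum_congr rfl fun x _ => by rw [pow_succ]; ring
    have h3 := eq_zero_of_powers S _ key α (by simp [hS])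
    rcases mul_eq_zero.1 h3 with h4 | h4
    · exact_mod_cast h4
    · exact absurd h4 hα

omit [MonoidalPreadditive C] in
lemma m_eq_zero_of_tr (hq : 1 < q) {M : C} (h : ∀ n, tr (pw (R.fr M) (n + 1)) = 0) (i : ℤ)
    (α : K) : R.m i M α = 0 := by
  by_contra hc
  have h1 := R.chi_eq hq M (R.weight_of_m hc)
  rw [chi_eq_zero R hq h] at h1
  have h2 : (Int.negOnePow i : ℤ) ≠ 0 := (Int.negOnePow i).ne_zero
  rcases mul_eq_zero.1 h1.symm with h3 | h3
  · exact h2 h3
  · exact hc (by exact_mod_cast h3)

omit [MonoidalPreadditive C] in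
/-- If the traces of the powers of Frobenius vanish then the cohomology vanishes. -/
theorem subsingleton_of_tr (hq : 1 < q) {M : C} (h : ∀ n, tr (pw (R.fr M) (n + 1)) = 0) (i : ℤ) :
    Subsingleton ((R.H i).obj M) := by
  have h1 := R.finrank_eq i M (R.eigs M) (Finset.Subset.refl _)
  rw [Finset.sum_eq_zero (fun α _ => m_eq_zero_of_tr R hq h i α)] at h1
  exact Module.finrank_zero_iff.1 h1

omit [MonoidalPreadditive C] [IsAlgClosed K] in
lemma map_smul_rat (i : ℤ) {M N : C} (c : ℚ) (f : M ⟶ N) :
    (R.H i).map (c • f) = (c : K) • (R.H i).map f := by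
  have := R.additive i
  have := map_ratCast_smul (R.H i).mapAddHom ℚ K c f
  simpa using this

/-- The traces of endomorphisms composed with powers of Frobenius, as a functional. -/
def tau {X : C} (m : ℕ) : End X →ₗ[ℚ] ℚ where
  toFun a := R.t ((a : X ⟶ X) ≫ pw (R.fr X) (m + 1))
  map_add' a b := by
    change R.t ((a + b : X ⟶ X) ≫ _) = _
    rw [Preadditive.add_comp, R.t_add]
  map_smul' c a := by
    change R.t ((c • a : X ⟶ X) ≫ _) = _
    rw [Linear.smul_comp, R.t_smul]
    rfl

omit [IsAlgClosed K] in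
lemma tau_apply {X : C} (m : ℕ) (a : X ⟶ X) :
    tau R m (show End X from a) = R.t (a ≫ pw (R.fr X) (m + 1)) := rfl

/-- If there are no phantoms then an idempotent with vanishing traces is zero. -/
lemma idem_eq_zero [IsIdempotentComplete C] (hq : 1 < q) (hR : NoPhantoms R) {X : C} (e : X ⟶ X)
    (he : e ≫ e = e) (h : ∀ m, R.t (e ≫ pw (R.fr X) (m + 1)) = 0) : e = 0 := by
  obtain ⟨P, i, p, hip, hpi⟩ := IsIdempotentComplete.idempotents_split X e he
  have h1 : ∀ n, tr (pw (R.fr P) (n + 1)) = 0 := by
    intro n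
    rw [R.tr_eq]
    have h2 : pw (R.fr P) (n + 1) = i ≫ (p ≫ pw (R.fr P) (n + 1)) := by
      rw [← Category.assoc, hip, Category.id_comp]
    rw [h2, R.t_comm, R.pw_fr_naturality, Category.assoc, hpi, ← R.pw_fr_naturality, h, zero_smul]
  have h3 : IsZero P := hR P (subsingleton_of_tr R hq h1)
  rw [← hpi, h3.eq_of_tgt p 0, zero_comp]

/-- The group of the permutations. -/
def permGroup (M : C) (n : ℕ) : Subgroup (End (tpow M n))ˣ where
  carrier := {u | IsPerm M n u.val}
  mul_mem' := by
    intro a b ha hb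
    change IsPerm M n (b.val ≫ a.val)
    exact IsPerm.comp hb ha
  one_mem' := IsPerm.one
  inv_mem' := by
    intro a ha
    obtain ⟨h, h1, h2, h3⟩ := IsPerm.inv ha
    have h4 : (a⁻¹).val = h := by
      have h5 : a.val * (show End (tpow M n) from h) = 1 := h3
      exact left_inv_eq_right_inv a.inv_val h5
    change IsPerm M n (a⁻¹).val
    rw [h4]
    exact h1

omit [Preadditive C] [Linear ℚ C] [RightRigidCategory C] [MonoidalPreadditive C] in
lemma finite_permGroup (M : C) (n : ℕ) : Finite (permGroup M n) := by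
  have := (finite_isPerm M n).to_subtype
  apply Finite.of_injective (β := {g | IsPerm M n g})
    (fun u : permGroup M n => (⟨u.1.val, u.2⟩ : {g | IsPerm M n g}))
  intro a b hab
  apply Subtype.ext
  apply Units.ext
  exact congrArg Subtype.val hab

omit [RightRigidCategory C] [MonoidalPreadditive C] in
lemma mem_span_iff (M : C) (n : ℕ) (x : End (tpow M n)) :
    x ∈ Submodule.span ℚ {a : End (tpow M n) | ∃ g ∈ permGroup M n, (g : End (tpow M n)) = a} ↔
      x ∈ Bp M n := by
  have : {a : End (tpow M n) | ∃ g ∈ permGroup M n, (g : End (tpow M n)) = a} =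
      {g | IsPerm M n g} := by
    ext a
    constructor
    · rintro ⟨g, hg, rfl⟩
      exact hg
    · intro ha
      obtain ⟨h, h1, h2, h3⟩ := IsPerm.inv ha
      exact ⟨⟨a, h, h3, h2⟩, ha, rfl⟩
  rw [this]
  rfl

/-- If there are no phantoms then the trace form, twisted by powers of Frobenius, is non-degenerate
on the space spanned by the permutations. -/
theorem nondegenerate [IsIdempotentComplete C] (hq : 1 < q) (hR : NoPhantoms R) {M : C} {n : ℕ}
    (x : tpow M n ⟶ tpow M n) (hx : x ∈ Bp M n)
    (h : ∀ w ∈ Bp M n, ∀ m, R.t ((x ≫ w) ≫ pw (R.fr (tpow M n)) (m + 1)) = 0) : x = 0 := by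
  have := finite_permGroup M n
  apply eq_zero_of_orthogonal (permGroup M n) (fun m : ℕ => tau R (X := tpow M n) m) _
    (show End (tpow M n) from x) ((mem_span_iff M n _).2 hx)
  · intro b hb j
    exact h b ((mem_span_iff M n _).1 hb) j
  · intro e _ he hτ
    exact idem_eq_zero R hq hR (e : tpow M n ⟶ tpow M n) he hτ

end

end Pool.Agent.H839.Kim
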