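import Pool.Graph.R_pool_sql_team_seeded_3997aac3.Q227.AB.Kim3

/-!
# Partial traces in symmetric monoidal categories
-/

open CategoryTheory MonoidalCategory Limits

universe v u w

namespace Pool.Agent.H839.Kim

open Pool.Agent.Q227.AB

set_option autoImplicit false

noncomputable section

variable {C : Type u} [Category.{v} C] [MonoidalCategory C] [SymmetricCategory C]

/-- The evaluation `P ⊗ Pᘁ ⟶ 𝟙`. -/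
def evl (P : C) [HasRightDual P] : P ⊗ Pᘁ ⟶ 𝟙_ C := (β_ P Pᘁ).hom ≫ ε_ P Pᘁ

/-- The partial trace over the last factor. -/
def pt {X Y P : C} [HasRightDual P] (g : X ⊗ P ⟶ Y ⊗ P) : X ⟶ Y :=
  (ρ_ X).inv ≫ X ◁ η_ P Pᘁ ≫ (α_ X P Pᘁ).inv ≫ g ▷ Pᘁ ≫ (α_ Y P Pᘁ).hom ≫ Y ◁ evl P ≫ (ρ_ Y).hom

lemma pt_left {W X Y P : C} [HasRightDual P] (u : W ⟶ X) (g : X ⊗ P ⟶ Y ⊗ P) :
    pt (u ▷ P ≫ g) = u ≫ pt g := by
  simp only [pt, comp_whiskerRight, Category.assoc]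
  rw [← associator_inv_naturality_left_assoc, whisker_exchange_assoc,
    rightUnitor_inv_naturality_assoc]

lemma pt_right {X Y Z P : C} [HasRightDual P] (g : X ⊗ P ⟶ Y ⊗ P) (v : Y ⟶ Z) :
    pt (g ≫ v ▷ P) = pt g ≫ v := by
  simp only [pt, comp_whiskerRight, Category.assoc]
  rw [associator_naturality_left_assoc, ← whisker_exchange_assoc, rightUnitor_naturality]

lemma pt_whisker {X P : C} [HasRightDual P] (g : P ⟶ P) :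
    pt (X ◁ g) = (ρ_ X).inv ≫ X ◁ tr g ≫ (ρ_ X).hom := by
  simp only [pt, tr, evl, MonoidalCategory.whiskerLeft_comp, Category.assoc]
  have : (α_ X P Pᘁ).inv ≫ (X ◁ g) ▷ Pᘁ ≫ (α_ X P Pᘁ).hom = X ◁ g ▷ Pᘁ := by
    simp
  rw [reassoc_of% this]

/-- Superposing. -/
lemma pt_super {X Y Z P : C} [HasRightDual P] (g : Y ⊗ P ⟶ Z ⊗ P) :
    pt ((α_ X Y P).hom ≫ X ◁ g ≫ (α_ X Z P).inv) = X ◁ pt g := by
  simp only [pt]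
  monoidal

/-- Yanking. -/
lemma pt_braiding (P : C) [HasRightDual P] : pt (β_ P P).hom = 𝟙 P := by
  have h1 : (β_ P P).hom ▷ Pᘁ ≫ (α_ P P Pᘁ).hom ≫ P ◁ (β_ P Pᘁ).hom =
      (α_ P P Pᘁ).hom ≫ (β_ P (P ⊗ Pᘁ)).hom ≫ (α_ P Pᘁ P).hom :=
    (BraidedCategory.hexagon_forward P P Pᘁ).symm
  simp only [pt, evl, MonoidalCategory.whiskerLeft_comp, Category.assoc]
  rw [reassoc_of% h1, Iso.inv_hom_id_assoc, BraidedCategory.braiding_naturality_right_assoc,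
    ExactPairing.evaluation_coevaluation_assoc, braiding_tensorUnit_right]
  simp

lemma pt_swapR (X P : C) [HasRightDual P] : pt (swapR X P) = 𝟙 (X ⊗ P) := by
  rw [swapR, pt_super, pt_braiding, MonoidalCategory.whiskerLeft_id]

/-- Sliding. -/
lemma pt_slide {X Y A B : C} [HasRightDual A] [HasRightDual B] (g : A ⟶ B) (h : X ⊗ B ⟶ Y ⊗ A) :
    pt (X ◁ g ≫ h) = pt (h ≫ Y ◁ g) := by
  have h1 : η_ A Aᘁ ≫ g ▷ Aᘁ = η_ B Bᘁ ≫ B ◁ gᘁ :=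
    (coevaluation_comp_rightAdjointMate g).symm
  have h2 : A ◁ gᘁ ≫ evl A = g ▷ Bᘁ ≫ evl B := by
    simp only [evl]
    rw [BraidedCategory.braiding_naturality_right_assoc, rightAdjointMate_comp_evaluation,
      BraidedCategory.braiding_naturality_left_assoc]
  simp only [pt, comp_whiskerRight, Category.assoc]
  have e1 : X ◁ η_ A Aᘁ ≫ (α_ X A Aᘁ).inv ≫ (X ◁ g) ▷ Aᘁ =
      X ◁ (η_ A Aᘁ ≫ g ▷ Aᘁ) ≫ (α_ X B Aᘁ).inv := by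
    simp
  have e2 : (Y ◁ g) ▷ Bᘁ ≫ (α_ Y B Bᘁ).hom ≫ Y ◁ evl B = (α_ Y A Bᘁ).hom ≫
      Y ◁ (g ▷ Bᘁ ≫ evl B) := by
    simp
  have e3 : X ◁ (η_ B Bᘁ ≫ B ◁ gᘁ) ≫ (α_ X B Aᘁ).inv = X ◁ η_ B Bᘁ ≫ (α_ X B Bᘁ).inv ≫
      (X ⊗ B) ◁ gᘁ := by
    simp
  have e4 : (α_ Y A Bᘁ).hom ≫ Y ◁ (A ◁ gᘁ ≫ evl A) = (Y ⊗ A) ◁ gᘁ ≫ (α_ Y A Aᘁ).hom ≫
      Y ◁ evl A := by
    simp
  rw [reassoc_of% e1, h1, reassoc_of% e3, whisker_exchange_assoc, reassoc_of% e2, ← h2,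
    reassoc_of% e4]

lemma pt_indep {X Y P : C} (d₁ d₂ : HasRightDual P) (g : X ⊗ P ⟶ Y ⊗ P) :
    @pt C _ _ _ X Y P d₁ g = @pt C _ _ _ X Y P d₂ g := by
  have h := @pt_slide C _ _ _ X Y P P d₁ d₂ (𝟙 P) g
  rwa [whiskerLeft_id, whiskerLeft_id, Category.id_comp, Category.comp_id] at h

lemma pt_tensor_aux {X Y A B : C} [HasRightDual A] [HasRightDual B]
    (g : X ⊗ (A ⊗ B) ⟶ Y ⊗ (A ⊗ B)) :
    @pt C _ _ _ X Y (A ⊗ B) hasRightDualTensor g =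
      pt (pt ((α_ X A B).hom ≫ g ≫ (α_ Y A B).inv)) := by
  unfold pt evl
  change (ρ_ X).inv ≫ X ◁ η_ (A ⊗ B) (Bᘁ ⊗ Aᘁ) ≫ (α_ X (A ⊗ B) (Bᘁ ⊗ Aᘁ)).inv ≫
    g ▷ (Bᘁ ⊗ Aᘁ) ≫ (α_ Y (A ⊗ B) (Bᘁ ⊗ Aᘁ)).hom ≫
    Y ◁ ((β_ (A ⊗ B) (Bᘁ ⊗ Aᘁ)).hom ≫ ε_ (A ⊗ B) (Bᘁ ⊗ Aᘁ)) ≫ (ρ_ Y).hom = _
  rw [ExactPairing.tensor_coevaluation, ExactPairing.tensor_evaluation, tensor_eval]
  monoidal

/-- Vanishing. -/
lemma pt_tensor {X Y A B : C} [HasRightDual A] [HasRightDual B] (d : HasRightDual (A ⊗ B))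
    (g : X ⊗ (A ⊗ B) ⟶ Y ⊗ (A ⊗ B)) :
    pt g = pt (pt ((α_ X A B).hom ≫ g ≫ (α_ Y A B).inv)) := by
  rw [← pt_tensor_aux]
  exact pt_indep _ _ _

end

end Pool.Agent.H839.Kim
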