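import Pool.Agent.H839.Kim.Cok

/-!
# Contraction of all factors but the last one
-/

open CategoryTheory MonoidalCategory Limits

universe v u w

namespace Pool.Agent.H839.Kim

open Pool.Agent.Q227.AB

set_option autoImplicit false

noncomputable section

section

variable {C : Type u} [Category.{v} C] [MonoidalCategory C] [SymmetricCategory C]

/-- The partial trace over the first factor. -/
def ptl {X P : C} [HasRightDual X] (h : X ⊗ P ⟶ X ⊗ P) : P ⟶ P :=
  pt ((β_ P X).hom ≫ h ≫ (β_ X P).hom)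

lemma ptl_comm {X P : C} [HasRightDual X] (g : X ⟶ X) (h : X ⊗ P ⟶ X ⊗ P) :
    ptl (g ▷ P ≫ h) = ptl (h ≫ g ▷ P) := by
  have e1 : (β_ P X).hom ≫ (g ▷ P ≫ h) ≫ (β_ X P).hom =
      P ◁ g ≫ (β_ P X).hom ≫ h ≫ (β_ X P).hom := by
    simp only [Category.assoc]
    rw [← BraidedCategory.braiding_naturality_right_assoc]
  have e2 : (β_ P X).hom ≫ (h ≫ g ▷ P) ≫ (β_ X P).hom =
      ((β_ P X).hom ≫ h ≫ (β_ X P).hom) ≫ P ◁ g := by
    simp only [Category.assoc]
    rw [BraidedCategory.braiding_naturality_left]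
  unfold ptl
  rw [e1, e2, pt_slide]

lemma ptl_right {X P : C} [HasRightDual X] (h : X ⊗ P ⟶ X ⊗ P) (ψ : P ⟶ P) :
    ptl (h ≫ X ◁ ψ) = ptl h ≫ ψ := by
  have e2 : (β_ P X).hom ≫ (h ≫ X ◁ ψ) ≫ (β_ X P).hom =
      ((β_ P X).hom ≫ h ≫ (β_ X P).hom) ≫ ψ ▷ X := by
    simp only [Category.assoc]
    rw [BraidedCategory.braiding_naturality_right]
  unfold ptl
  rw [e2, pt_right]

/-- The contraction of a transposition. -/
lemma ptl_swapR {X P : C} [HasRightDual X] [HasRightDual P] (d : HasRightDual (X ⊗ P))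
    (g : X ⊗ P ⟶ X ⊗ P) : ptl (swapR X P ≫ g ▷ P) = ptl g := by
  have h1 : (α_ P X P).hom ≫ (β_ P (X ⊗ P)).hom = (β_ P X).hom ▷ P ≫ swapR X P := by
    rw [BraidedCategory.braiding_tensor_right_hom, swapR]
    simp
  have h2 : (β_ (X ⊗ P) P).hom ≫ (α_ P X P).inv = swapR X P ≫ (β_ X P).hom ▷ P := by
    rw [BraidedCategory.braiding_tensor_left_hom, swapR]
    simp
  unfold ptl
  rw [pt_tensor]
  simp only [Category.assoc]
  rw [reassoc_of% h1, reassoc_of% swapR_swapR X P, h2, pt_left, ← Category.assoc, ← Category.assoc,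
    pt_right, pt_left, pt_swapR, Category.comp_id]
  simp only [Category.assoc]

end

section

variable {C : Type u} [Category.{v} C] [Preadditive C] [Linear ℚ C] [MonoidalCategory C]
  [SymmetricCategory C] [MonoidalPreadditive C]

lemma ptl_whiskerRight {X P : C} [HasRightDual X] {g : X ⟶ X} {c : ℚ}
    (h : tr g = c • 𝟙 (𝟙_ C)) : ptl (g ▷ P) = c • 𝟙 P := by
  have e1 : (β_ P X).hom ≫ g ▷ P ≫ (β_ X P).hom = P ◁ g := by
    rw [← BraidedCategory.braiding_naturality_right_assoc, SymmetricCategory.symmetry,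
      Category.comp_id]
  unfold ptl
  rw [e1, pt_scalar h]

omit [Linear ℚ C] in
lemma ptl_add {X P : C} [HasRightDual X] (f g : X ⊗ P ⟶ X ⊗ P) :
    ptl (f + g) = ptl f + ptl g := by
  unfold ptl
  rw [← pt_add, Preadditive.add_comp, Preadditive.comp_add]

omit [Linear ℚ C] in
/-- The partial trace as an additive map. -/
def ptlHom (X P : C) [HasRightDual X] : (X ⊗ P ⟶ X ⊗ P) →+ (P ⟶ P) :=
  AddMonoidHom.mk' ptl ptl_add

lemma ptl_smul {X P : C} [HasRightDual X] (c : ℚ) (f : X ⊗ P ⟶ X ⊗ P) :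
    ptl (c • f) = c • ptl f :=
  map_rat_smul (ptlHom X P) c f

omit [Linear ℚ C] in
lemma ptl_zero {X P : C} [HasRightDual X] : ptl (0 : X ⊗ P ⟶ X ⊗ P) = 0 :=
  map_zero (ptlHom X P)

end

end

end Pool.Agent.H839.Kim
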