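import Pool.Agent.H839.Kim.Bound

/-!
# Without phantoms the Frobenius endomorphisms are algebraic
-/

open CategoryTheory MonoidalCategory Limits

universe v u w

namespace Pool.Agent.H839.Kim

open Pool.Agent.Q227.AB

set_option autoImplicit false

noncomputable section

attribute [-instance] CategoryTheory.hasRightDualUnit

variable {C : Type u} [Category.{v} C] [Preadditive C] [Linear ℚ C] [MonoidalCategory C]
  [SymmetricCategory C] [RightRigidCategory C] [MonoidalPreadditive C]
  {K : Type w} [Field K] [CharZero K] {q : ℕ} (R : FrobeniusCohomology C K q)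

/-- There is a relation between the permutations which involves one that fixes the last factor. -/
theorem exists_relation [IsAlgClosed K] [IsIdempotentComplete C] (hq : 1 < q) (hR : NoPhantoms R)
    (M : C) : ∃ (n : ℕ) (x : tpow M n ⟶ tpow M n), x ∈ Bp M n ∧ x ▷ M ∈ Zs M n ∧ x ≠ 0 := by
  by_contra hc
  push Not at hc
  have h1 : ∀ n, n.factorial ≤ (R.betti (𝟙_ C) * R.betti M ^ n) ^ 2 := by
    intro n
    refine (factorial_le R.unit_ne_zero hc n).trans ((finrank_Bp_le R hq hR M n).trans ?_)
    exact Nat.pow_le_pow_left (betti_tpow_le R M n) 2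
  obtain ⟨n, h2⟩ := (Nat.eventually_mul_pow_lt_factorial_sub
    (R.betti (𝟙_ C) ^ 2) (R.betti M ^ 2) 0).exists
  rw [Nat.sub_zero] at h2
  have h3 := h1 n
  rw [mul_pow, ← pow_mul, mul_comm n 2, pow_mul] at h3
  omega

/-- The combinations of positive powers of Frobenius. -/
def Pos (M : C) : Submodule ℚ (M ⟶ M) :=
  Submodule.span ℚ (Set.range fun k : ℕ => pw (R.fr M) (k + 1))

omit [MonoidalPreadditive C] in
lemma pw_mem_pos {M : C} {k : ℕ} (hk : 1 ≤ k) : pw (R.fr M) k ∈ Pos R M := by
  obtain ⟨j, rfl⟩ : ∃ j, k = j + 1 := ⟨k - 1, by omega⟩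
  exact Submodule.subset_span ⟨j, rfl⟩

omit [MonoidalPreadditive C] in
lemma pos_comp {M : C} {a : M ⟶ M} (ha : a ∈ Pos R M) (k : ℕ) : a ≫ pw (R.fr M) k ∈ Pos R M := by
  induction ha using Submodule.span_induction with
  | mem a ha =>
    obtain ⟨j, rfl⟩ := ha
    simp only
    rw [← pw_add]
    exact pw_mem_pos R (by omega)
  | zero =>
    rw [zero_comp]
    exact Submodule.zero_mem _
  | add x y _ _ hx hy =>
    rw [Preadditive.add_comp]
    exact Submodule.add_mem _ hx hy
  | smul c x _ hx =>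
    rw [Linear.smul_comp]
    exact Submodule.smul_mem _ _ hx

omit [MonoidalPreadditive C] in
lemma pw_fr_tensor (X M : C) (k : ℕ) :
    pw (R.fr (X ⊗ M)) k = pw (R.fr X) k ▷ M ≫ X ◁ pw (R.fr M) k := by
  induction k with
  | zero => simp [pw]
  | succ k ih =>
    have h1 : R.fr (X ⊗ M) = R.fr X ▷ M ≫ X ◁ R.fr M := by
      unfold FrobeniusCohomology.fr
      rw [R.frob_tensor, MonoidalCategory.tensorHom_def]
      rfl
    simp only [pw]
    rw [ih, h1]
    simp only [comp_whiskerRight, MonoidalCategory.whiskerLeft_comp, Category.assoc]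
    rw [whisker_exchange_assoc]

lemma ptl_tr {X P : C} (g : X ⟶ X) : ptl (g ▷ P) = R.t g • 𝟙 P :=
  ptl_whiskerRight (R.tr_eq g)

/-- The contraction of a permutation with positive powers of Frobenius. -/
lemma ptl_mem_pos (M : C) {m : ℕ} (hm : 1 ≤ m) : ∀ (n : ℕ) (g : tpow M (n + 1) ⟶ tpow M (n + 1)),
    g ∈ Bp M (n + 1) →
      ptl (X := tpow M n) (P := M) (g ≫ pw (R.fr (tpow M (n + 1))) m) ∈ Pos R M := by
  intro n
  induction n with
  | zero =>
    intro g hg
    induction hg using Submodule.span_induction with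
    | mem g hg =>
      rw [isPerm_one hg, Category.id_comp]
      have h1 := pw_fr_tensor R (tpow M 0) M m
      change ptl (X := tpow M 0) (P := M) (pw (R.fr (tpow M 0 ⊗ M)) m) ∈ Pos R M
      rw [h1, ptl_right, ptl_tr R, Linear.smul_comp, Category.id_comp]
      exact Submodule.smul_mem _ _ (pw_mem_pos R hm)
    | zero =>
      rw [zero_comp, ptl_zero]
      exact Submodule.zero_mem _
    | add x y _ _ hx hy =>
      rw [Preadditive.add_comp, ptl_add]
      exact Submodule.add_mem _ hx hy
    | smul c x _ hx =>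
      rw [Linear.smul_comp, ptl_smul]
      exact Submodule.smul_mem _ _ hx
  | succ n ih =>
    intro g hg
    induction hg using Submodule.span_induction with
    | mem g hg =>
      obtain ⟨w, p, hw, hp, rfl⟩ := IsPerm.normal (n + 1) hg
      have h1 := pw_fr_tensor R (tpow M (n + 1)) M m
      change ptl (X := tpow M (n + 1)) (P := M) ((w ▷ M ≫ cyc M (n + 1) p) ≫
        pw (R.fr (tpow M (n + 1) ⊗ M)) m) ∈ Pos R M
      rw [h1, ← Category.assoc, ptl_right]
      cases p with
      | zero =>
        rw [cyc_zero, Category.comp_id, ← comp_whiskerRight, ptl_tr R, Linear.smul_comp,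
          Category.id_comp]
        exact Submodule.smul_mem _ _ (pw_mem_pos R hm)
      | succ r =>
        apply pos_comp
        rw [cyc_succ, Category.assoc, ptl_comm]
        have e1 : ((swapR (tpow M n) M ≫ cyc M n r ▷ M) ≫ pw (R.fr (tpow M (n + 1))) m ▷ M) ≫
            w ▷ M = swapR (tpow M n) M ≫ ((cyc M n r ≫ w) ≫ pw (R.fr (tpow M (n + 1))) m) ▷ M := by
          simp only [Category.assoc]
          rw [← comp_whiskerRight, ← comp_whiskerRight, R.pw_fr_naturality w m]
        rw [e1]
        have e2 := ptl_swapR (X := tpow M n) (P := M) inferInstance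
          ((cyc M n r ≫ w) ≫ pw (R.fr (tpow M (n + 1))) m)
        rw [e2]
        exact ih _ (Bp_comp (cyc_isPerm M n r).mem hw.mem)
    | zero =>
      rw [zero_comp, ptl_zero]
      exact Submodule.zero_mem _
    | add x y _ _ hx hy =>
      rw [Preadditive.add_comp, ptl_add]
      exact Submodule.add_mem _ hx hy
    | smul c x _ hx =>
      rw [Linear.smul_comp, ptl_smul]
      exact Submodule.smul_mem _ _ hx

/-- The contraction of a permutation which does not fix the last factor. -/
lemma ptl_notFix (M : C) {m : ℕ} (hm : 1 ≤ m) (n : ℕ) (g : tpow M (n + 1) ⟶ tpow M (n + 1))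
    (hg : g ∈ Zs M n) (w : tpow M n ⟶ tpow M n) (hw : w ∈ Bp M n) :
      ptl (X := tpow M n) (P := M) (g ≫ (w ≫ pw (R.fr (tpow M n)) m) ▷ M) ∈ Pos R M := by
  induction hg using Submodule.span_induction with
  | mem g hg =>
    cases n with
    | zero => exact hg.elim
    | succ n =>
      obtain ⟨y, z, hy, hz, rfl⟩ := hg
      have e1 : ptl (X := tpow M (n + 1)) (P := M)
          ((y ▷ M ≫ swapR (tpow M n) M ≫ z ▷ M) ≫ (w ≫ pw (R.fr (tpow M (n + 1))) m) ▷ M) =
          ptl (X := tpow M (n + 1)) (P := M) (swapR (tpow M n) M ≫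
            (((z ≫ w) ≫ y) ≫ pw (R.fr (tpow M (n + 1))) m) ▷ M) := by
        rw [Category.assoc, ptl_comm]
        congr 1
        simp only [Category.assoc]
        rw [← comp_whiskerRight, ← comp_whiskerRight]
        simp only [Category.assoc]
        rw [R.pw_fr_naturality y m]
      rw [e1]
      have e2 := ptl_swapR (X := tpow M n) (P := M) inferInstance
          (((z ≫ w) ≫ y) ≫ pw (R.fr (tpow M (n + 1))) m)
      rw [e2]
      exact ptl_mem_pos R M hm n _ (Bp_comp (Bp_comp hz.mem hw) hy.mem)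
  | zero =>
    rw [zero_comp, ptl_zero]
    exact Submodule.zero_mem _
  | add x y _ _ hx hy =>
    rw [Preadditive.add_comp, ptl_add]
    exact Submodule.add_mem _ hx hy
  | smul c x _ hx =>
    rw [Linear.smul_comp, ptl_smul]
    exact Submodule.smul_mem _ _ hx

/-- If there are no phantoms then the identity is a combination of positive powers of Frobenius. -/
theorem id_mem_pos [IsAlgClosed K] [IsIdempotentComplete C] (hq : 1 < q) (hR : NoPhantoms R)
    (M : C) : 𝟙 M ∈ Pos R M := by
  obtain ⟨n, x, hx, hx', hne⟩ := exists_relation R hq hR M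
  have h1 : ∃ w ∈ Bp M n, ∃ m, R.t ((x ≫ w) ≫ pw (R.fr (tpow M n)) (m + 1)) ≠ 0 := by
    by_contra hc
    push Not at hc
    exact hne (nondegenerate R hq hR x hx hc)
  obtain ⟨w, hw, m, hne'⟩ := h1
  have h2 := ptl_notFix R M (m := m + 1) (by omega) n _ hx' w hw
  rw [← comp_whiskerRight, ptl_tr R, ← Category.assoc] at h2
  have h3 := Submodule.smul_mem _ (R.t ((x ≫ w) ≫ pw (R.fr (tpow M n)) (m + 1)))⁻¹ h2
  rwa [smul_smul, inv_mul_cancel₀ hne', one_smul] at h3

open Polynomial

omit [MonoidalPreadditive C] in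
lemma exists_of_mem_pos {M : C} {a : M ⟶ M} (ha : a ∈ Pos R M) : ∃ g : ℚ[X], a = R.ev M (X * g) := by
  induction ha using Submodule.span_induction with
  | mem a ha =>
    obtain ⟨j, rfl⟩ := ha
    refine ⟨X ^ j, ?_⟩
    have h := R.ev_monomial M (j + 1) 1
    rw [one_smul] at h
    rw [← pow_succ', X_pow_eq_monomial, h]
  | zero => exact ⟨0, by rw [mul_zero, R.ev_zero]⟩
  | add x y _ _ hx hy =>
    obtain ⟨g, rfl⟩ := hx
    obtain ⟨g', rfl⟩ := hy
    exact ⟨g + g', by rw [mul_add, R.ev_add]⟩
  | smul c x _ hx =>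
    obtain ⟨g, rfl⟩ := hx
    refine ⟨c • g, ?_⟩
    unfold FrobeniusCohomology.ev
    rw [mul_smul_comm, map_smul]

/-- **Without phantoms, Frobenius is algebraic on every object.** -/
theorem exists_poly [IsAlgClosed K] [IsIdempotentComplete C] (hq : 1 < q) (hR : NoPhantoms R)
    (M : C) : ∃ Q : ℚ[X], Q.coeff 0 = 1 ∧ R.ev M Q = 0 := by
  obtain ⟨g, hg⟩ := exists_of_mem_pos R (id_mem_pos R hq hR M)
  refine ⟨1 - X * g, ?_, ?_⟩
  · simp
  · have h1 : R.ev M 1 = R.ev M (1 - X * g) + R.ev M (X * g) := by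
      rw [← R.ev_add, sub_add_cancel]
    rw [R.ev_one, ← hg] at h1
    exact (left_eq_add.1 (h1.trans (add_comm _ _)))

end

end Pool.Agent.H839.Kim
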